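import Pool.Agent.J4H94.NRC.Term

/-!
# Counting the bad events through a vertex
-/

namespace Pool.Agent.J4H94.NRC

open Finset

variable (adj : ℕ → ℕ → Prop) [DecidableRel adj] (n : ℕ)

/-- the continuations of length `i` of a walk at `u` -/
def walks : ℕ → ℕ → Finset (List ℕ)
  | 0, _ => {[]}
  | i + 1, u => ((range n).filter (adj u)).biUnion fun v => (walks i v).image (fun l => v :: l)

theorem mem_walks : ∀ (i u : ℕ) (l : List ℕ), l.length = i → (u :: l).IsChain adj →
    (∀ x ∈ l, x < n) → l ∈ walks adj n i u := by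
  intro i
  induction i with
  | zero =>
    intro u l hl _ _
    have : l = [] := List.length_eq_zero_iff.1 hl
    simp [walks, this]
  | succ i ih =>
    intro u l hl hch hlt
    cases l with
    | nil => simp at hl
    | cons v l =>
      rw [walks, mem_biUnion]
      rw [List.isChain_cons_cons] at hch
      refine ⟨v, ?_, ?_⟩
      · rw [mem_filter, mem_range]
        exact ⟨hlt v (by simp), hch.1⟩
      · rw [mem_image]
        exact ⟨l, ih v l (by simpa using hl) hch.2 (fun x hx => hlt x (by simp [hx])), rfl⟩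

theorem card_walks (Δ : ℕ) (hΔ : ∀ u, ((range n).filter (adj u)).card ≤ Δ) :
    ∀ i u, (walks adj n i u).card ≤ Δ ^ i := by
  intro i
  induction i with
  | zero => intro u; simp [walks]
  | succ i ih =>
    intro u
    rw [walks]
    refine card_biUnion_le.trans ?_
    calc _ ≤ ∑ v ∈ (range n).filter (adj u), Δ ^ i :=
          sum_le_sum fun v _ => card_image_le.trans (ih v)
      _ = ((range n).filter (adj u)).card * Δ ^ i := by rw [sum_const, smul_eq_mul]
      _ ≤ Δ * Δ ^ i := Nat.mul_le_mul_right _ (hΔ u)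
      _ = Δ ^ (i + 1) := by rw [pow_succ']

/-- the walks with `l` vertices through `u` -/
def thru (l u : ℕ) : Finset (List ℕ) :=
  (range l).biUnion fun i => (walks adj n i u ×ˢ walks adj n (l - 1 - i) u).image
    (fun p => p.1.reverse ++ u :: p.2)

theorem card_thru (Δ : ℕ) (hΔ : ∀ u, ((range n).filter (adj u)).card ≤ Δ) (l u : ℕ) :
    (thru adj n l u).card ≤ l * Δ ^ (l - 1) := by
  unfold thru
  refine card_biUnion_le.trans ?_
  calc _ ≤ ∑ i ∈ range l, Δ ^ (l - 1) := by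
        refine sum_le_sum fun i hi => ?_
        refine card_image_le.trans ?_
        rw [card_product]
        calc _ ≤ Δ ^ i * Δ ^ (l - 1 - i) :=
              Nat.mul_le_mul (card_walks adj n Δ hΔ i u) (card_walks adj n Δ hΔ _ u)
          _ = Δ ^ (l - 1) := by
            rw [← pow_add]
            congr 1
            rw [mem_range] at hi
            omega
    _ = l * Δ ^ (l - 1) := by rw [sum_const, smul_eq_mul, card_range]

theorem mem_thru (hsymm : ∀ x y, adj x y → adj y x) (u : ℕ) (l : List ℕ) (hch : l.IsChain adj)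
    (hlt : ∀ x ∈ l, x < n) (hu : u ∈ l) : l ∈ thru adj n l.length u := by
  obtain ⟨s, t, rfl⟩ := List.append_of_mem hu
  unfold thru
  rw [mem_biUnion]
  refine ⟨s.length, ?_, ?_⟩
  · simp
  · rw [mem_image]
    refine ⟨(s.reverse, t), ?_, by simp⟩
    rw [mem_product]
    have h1 : (u :: t).IsChain adj := (List.isChain_append.1 hch).2.1
    have h2 : (s ++ [u]).IsChain adj := by
      have : (s ++ [u] ++ t).IsChain adj := by simpa using hch
      exact (List.isChain_append.1 this).1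
    have h3 : (u :: s.reverse).IsChain adj := by
      have h4 : ((s ++ [u]).reverse).IsChain adj := by
        rw [List.isChain_reverse]
        exact h2.imp (fun x y h => hsymm x y h)
      simpa using h4
    refine ⟨mem_walks adj n _ u _ (by simp) h3 (fun x hx => hlt x ?_),
      mem_walks adj n _ u _ ?_ h1 (fun x hx => hlt x ?_)⟩
    · simp only [List.mem_reverse] at hx
      simp [hx]
    · simp
    · simp only at hx
      simp [hx]

/-- the walks with `l` vertices -/
def allw (l : ℕ) : Finset (List ℕ) :=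
  (range n).biUnion fun v => (walks adj n (l - 1) v).image (fun l => v :: l)

theorem card_allw (Δ : ℕ) (hΔ : ∀ u, ((range n).filter (adj u)).card ≤ Δ) (l : ℕ) :
    (allw adj n l).card ≤ n * Δ ^ (l - 1) := by
  unfold allw
  refine card_biUnion_le.trans ?_
  calc _ ≤ ∑ i ∈ range n, Δ ^ (l - 1) :=
        sum_le_sum fun v _ => card_image_le.trans (card_walks adj n Δ hΔ _ v)
    _ = _ := by rw [sum_const, smul_eq_mul, card_range]

theorem mem_allw (l : List ℕ) (hne : l ≠ []) (hch : l.IsChain adj)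
    (hlt : ∀ x ∈ l, x < n) : l ∈ allw adj n l.length := by
  cases l with
  | nil => exact absurd rfl hne
  | cons v l =>
    unfold allw
    rw [mem_biUnion]
    refine ⟨v, mem_range.2 (hlt v (by simp)), ?_⟩
    rw [mem_image]
    exact ⟨l, mem_walks adj n _ v l (by simp) hch (fun x hx => hlt x (by simp [hx])), rfl⟩

/-- a finite set containing all bad events through `u` whose paths have length `t` -/
def evt (L t u : ℕ) : Finset (List ℕ × List ℕ) :=
  (if t < L then (thru adj n (2 * t) u).image (fun l => (l.take t, l.drop t))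
    else thru adj n t u ×ˢ allw adj n t ∪ allw adj n t ×ˢ thru adj n t u).filter
    (fun B => B.1.length = t ∧ B.1.length = B.2.length ∧ (B.1 ++ B.2).Nodup ∧
      ∀ x ∈ B.1 ++ B.2, x < n)

/-- a finite set containing all bad events through `u` -/
def evs (L u : ℕ) : Finset (List ℕ × List ℕ) := (Icc 1 L).biUnion fun t => evt adj n L t u

theorem mem_evs (hsymm : ∀ x y, adj x y → adj y x) (L u : ℕ) (B : List ℕ × List ℕ)
    (hB : Valid adj n L B) (hu : u ∈ B.1 ++ B.2) : B ∈ evs adj n L u := by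
  unfold evs
  rw [mem_biUnion]
  refine ⟨B.1.length, mem_Icc.2 ⟨hB.pos, hB.le⟩, ?_⟩
  unfold evt
  rw [mem_filter]
  refine ⟨?_, rfl, hB.len, hB.nd, hB.lt⟩
  split_ifs with h
  · rw [mem_image]
    refine ⟨B.1 ++ B.2, ?_, ?_⟩
    · have h1 : (B.1 ++ B.2).length = 2 * B.1.length := by
        rw [List.length_append, ← hB.len]
        ring
      rw [← h1]
      refine mem_thru adj n hsymm u _ ?_ hB.lt hu
      rcases hB.cl with h2 | h2
      · omega
      · exact h2
    · simp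
  · rw [mem_union, mem_product, mem_product]
    have hne1 : B.1 ≠ [] := by
      intro h'
      have := hB.pos
      rw [h'] at this
      simp at this
    have hne2 : B.2 ≠ [] := by
      intro h'
      have := hB.pos
      rw [hB.len, h'] at this
      simp at this
    have hlt1 : ∀ x ∈ B.1, x < n := fun x hx => hB.lt x (by simp [hx])
    have hlt2 : ∀ x ∈ B.2, x < n := fun x hx => hB.lt x (by simp [hx])
    rcases List.mem_append.1 hu with hu | hu
    · left
      refine ⟨mem_thru adj n hsymm u _ hB.ch1 hlt1 hu, ?_⟩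
      rw [hB.len]
      exact mem_allw adj n _ hne2 hB.ch2 hlt2
    · right
      refine ⟨mem_allw adj n _ hne1 hB.ch1 hlt1, ?_⟩
      rw [hB.len]
      exact mem_thru adj n hsymm u _ hB.ch2 hlt2 hu

theorem evs_spec (L u : ℕ) (B : List ℕ × List ℕ) (hB : B ∈ evs adj n L u) :
    B.1.length = B.2.length ∧ (B.1 ++ B.2).Nodup ∧ ∀ x ∈ B.1 ++ B.2, x < n := by
  unfold evs evt at hB
  rw [mem_biUnion] at hB
  obtain ⟨t, _, h⟩ := hB
  rw [mem_filter] at h
  exact h.2.2

theorem two_mul_le_two_pow : ∀ t : ℕ, 1 ≤ t → 2 * t ≤ 2 ^ t := by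
  intro t ht
  induction t, ht using Nat.le_induction with
  | base => norm_num
  | succ t ht ih => rw [pow_succ]; omega

theorem geom_bound : ∀ m : ℕ, ∑ t ∈ Icc 1 m, (1 / 8 : ℝ) ^ t ≤ 1 / 7 - (1 / 8) ^ m / 7 := by
  intro m
  induction m with
  | zero => simp
  | succ m ih =>
    rw [Finset.sum_Icc_succ_top (by omega), pow_succ]
    linarith

theorem sum_evs_le (L : ℕ) (hL : 2 ≤ L) (hnL : 64 * n ≤ 8 ^ L) (Δ k : ℕ) (hΔ1 : 1 ≤ Δ)
    (hk : 36 * Δ ^ 2 ≤ k)
    (hΔ : ∀ u, ((range n).filter (adj u)).card ≤ Δ) (u : ℕ) :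
    ∑ B ∈ evs adj n L u, ((k : ℝ) ^ B.1.length)⁻¹ * (3 / 2 : ℝ) ^ (2 * B.1.length) ≤ 1 / 4 := by
  have hΔ0 : (1 : ℝ) ≤ Δ := by exact_mod_cast hΔ1
  have hk0 : (0 : ℝ) < k := by
    have : 0 < k := lt_of_lt_of_le (by positivity) hk
    exact_mod_cast this
  have hkR : 36 * (Δ : ℝ) ^ 2 ≤ k := by exact_mod_cast hk
  -- the weight of an event
  have hw : ∀ t : ℕ, (Δ : ℝ) ^ (2 * t) * (((k : ℝ) ^ t)⁻¹ * (3 / 2 : ℝ) ^ (2 * t)) ≤ (1 / 16) ^ t := by
    intro t
    have h1 : (Δ : ℝ) ^ (2 * t) * (((k : ℝ) ^ t)⁻¹ * (3 / 2 : ℝ) ^ (2 * t)) =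
        ((Δ : ℝ) ^ 2 * (9 / 4) / k) ^ t := by
      rw [pow_mul, pow_mul, div_pow ((Δ : ℝ) ^ 2 * (9 / 4)) (k : ℝ) t, mul_pow ((Δ : ℝ) ^ 2) (9 / 4) t,
        show ((3 / 2 : ℝ) ^ 2) = 9 / 4 by norm_num, div_eq_mul_inv _ ((k : ℝ) ^ t)]
      ring
    rw [h1]
    refine pow_le_pow_left₀ (by positivity) ?_ t
    rw [div_le_iff₀ hk0]
    nlinarith
  have hdisj : (↑(Icc 1 L) : Set ℕ).PairwiseDisjoint (fun t => evt adj n L t u) := by
    intro s _ t _ hst
    rw [Function.onFun, Finset.disjoint_left]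
    intro B hB hB'
    unfold evt at hB hB'
    rw [mem_filter] at hB hB'
    exact hst (hB.2.1.symm.trans hB'.2.1)
  unfold evs
  rw [sum_biUnion hdisj]
  have hconst : ∀ t, ∑ B ∈ evt adj n L t u, ((k : ℝ) ^ B.1.length)⁻¹ *
      (3 / 2 : ℝ) ^ (2 * B.1.length) =
      (evt adj n L t u).card * (((k : ℝ) ^ t)⁻¹ * (3 / 2 : ℝ) ^ (2 * t)) := by
    intro t
    rw [← nsmul_eq_mul, ← sum_const]
    refine sum_congr rfl fun B hB => ?_
    unfold evt at hB
    rw [mem_filter] at hB
    rw [hB.2.1]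
  simp only [hconst]
  have hsmall : ∀ t, 1 ≤ t → t < L → ((evt adj n L t u).card : ℝ) * (((k : ℝ) ^ t)⁻¹ *
      (3 / 2 : ℝ) ^ (2 * t)) ≤ (1 / 8) ^ t := by
    intro t ht1 ht
    have h1 : (evt adj n L t u).card ≤ 2 * t * Δ ^ (2 * t - 1) := by
      unfold evt
      refine (card_filter_le _ _).trans ?_
      rw [if_pos ht]
      exact card_image_le.trans (card_thru adj n Δ hΔ _ _)
    have h2 : (evt adj n L t u).card ≤ 2 ^ t * Δ ^ (2 * t) :=
      h1.trans (Nat.mul_le_mul (two_mul_le_two_pow t ht1) (Nat.pow_le_pow_right hΔ1 (by omega)))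
    have h3 : ((evt adj n L t u).card : ℝ) ≤ 2 ^ t * (Δ : ℝ) ^ (2 * t) := by exact_mod_cast h2
    calc _ ≤ (2 ^ t * (Δ : ℝ) ^ (2 * t)) * (((k : ℝ) ^ t)⁻¹ * (3 / 2 : ℝ) ^ (2 * t)) :=
          mul_le_mul_of_nonneg_right h3 (by positivity)
      _ = 2 ^ t * ((Δ : ℝ) ^ (2 * t) * (((k : ℝ) ^ t)⁻¹ * (3 / 2 : ℝ) ^ (2 * t))) := by ring
      _ ≤ 2 ^ t * (1 / 16) ^ t := mul_le_mul_of_nonneg_left (hw t) (by positivity)
      _ = (1 / 8) ^ t := by rw [← mul_pow]; norm_num
  have hlast : ((evt adj n L L u).card : ℝ) * (((k : ℝ) ^ L)⁻¹ *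
      (3 / 2 : ℝ) ^ (2 * L)) ≤ 1 / 64 := by
    have h1 : (evt adj n L L u).card ≤ 2 * (L * Δ ^ (L - 1) * (n * Δ ^ (L - 1))) := by
      unfold evt
      refine (card_filter_le _ _).trans ?_
      rw [if_neg (lt_irrefl L)]
      refine (card_union_le _ _).trans ?_
      rw [card_product, card_product]
      have e1 := card_thru adj n Δ hΔ L u
      have e2 := card_allw adj n Δ hΔ L
      have e3 := Nat.mul_le_mul e1 e2
      have e4 := Nat.mul_le_mul e2 e1
      have e5 : n * Δ ^ (L - 1) * (L * Δ ^ (L - 1)) = L * Δ ^ (L - 1) * (n * Δ ^ (L - 1)) := by ring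
      omega
    have h2 : (evt adj n L L u).card ≤ n * (2 ^ L * Δ ^ (2 * L)) := by
      refine h1.trans ?_
      calc 2 * (L * Δ ^ (L - 1) * (n * Δ ^ (L - 1))) =
            n * ((2 * L) * (Δ ^ (L - 1) * Δ ^ (L - 1))) := by ring
        _ ≤ n * (2 ^ L * Δ ^ (2 * L)) := by
          refine Nat.mul_le_mul_left _ (Nat.mul_le_mul (two_mul_le_two_pow L (by omega)) ?_)
          rw [← pow_add]
          exact Nat.pow_le_pow_right hΔ1 (by omega)
    have h3 : ((evt adj n L L u).card : ℝ) ≤ n * (2 ^ L * (Δ : ℝ) ^ (2 * L)) := by exact_mod_cast h2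
    have h4 : (64 : ℝ) * n ≤ 8 ^ L := by exact_mod_cast hnL
    calc _ ≤ (n * (2 ^ L * (Δ : ℝ) ^ (2 * L))) * (((k : ℝ) ^ L)⁻¹ * (3 / 2 : ℝ) ^ (2 * L)) :=
          mul_le_mul_of_nonneg_right h3 (by positivity)
      _ = n * (2 ^ L * ((Δ : ℝ) ^ (2 * L) * (((k : ℝ) ^ L)⁻¹ * (3 / 2 : ℝ) ^ (2 * L)))) := by ring
      _ ≤ n * (2 ^ L * (1 / 16) ^ L) :=
        mul_le_mul_of_nonneg_left (mul_le_mul_of_nonneg_left (hw L) (by positivity))
          (Nat.cast_nonneg _)
      _ = n * (1 / 8) ^ L := by rw [← mul_pow]; norm_num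
      _ ≤ 1 / 64 := by
        rw [one_div_pow, mul_one_div, div_le_iff₀ (by positivity)]
        linarith
  obtain ⟨m, rfl⟩ : ∃ m, L = m + 1 := ⟨L - 1, by omega⟩
  rw [Finset.sum_Icc_succ_top (by omega)]
  have h1 := Finset.sum_le_sum fun t (ht : t ∈ Icc 1 m) =>
    hsmall t (mem_Icc.1 ht).1 (by have := (mem_Icc.1 ht).2; omega)
  have h2 := geom_bound m
  have h3 : (0 : ℝ) ≤ (1 / 8) ^ m / 7 := by positivity
  linarith

end Pool.Agent.J4H94.NRC
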