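import Pool.Agent.J4H94.NRC.Run

/-!
# Random labellings are injective on all small sets
-/

namespace Pool.Agent.J4H94.NRC

open Finset

variable {W : Type} {n : ℕ} [Fintype W]

/-- At least half of the functions with `C` have at `y` a word whose label avoids a given set of at
most `M / 2` labels. -/
theorem card_avoid (lb : W → ℕ) (M : ℕ)
    (hlb : ∀ a, (univ.filter fun w : W => lb w = a).card * M ≤ Fintype.card W) (hM : 0 < M)
    (C : (Fin n → W) → Prop) [DecidablePred C] (g : (Fin n → W) → Finset ℕ) (y : Fin n)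
    (hC : ∀ c w, C (Function.update c y w) ↔ C c)
    (hg : ∀ c w, g (Function.update c y w) = g c) (hgc : ∀ c, 2 * (g c).card ≤ M) :
    (univ.filter fun c : Fin n → W => C c).card ≤
      2 * (univ.filter fun c : Fin n → W => C c ∧ lb (c y) ∉ g c).card := by
  classical
  rcases isEmpty_or_nonempty W with hW | hW
  · have : IsEmpty (Fin n → W) := ⟨fun c => hW.elim (c y)⟩
    simp [Finset.univ_eq_empty]
  have hpos : 0 < Fintype.card W := Fintype.card_pos
  have key : (univ.filter fun c : Fin n → W => C c ∧ lb (c y) ∉ g c).card * Fintype.card W =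
      ∑ c ∈ univ.filter (fun c : Fin n → W => C c), (univ.filter fun w : W => lb w ∉ g c).card := by
    rw [← Finset.card_sigma, ← Finset.card_univ, ← Finset.card_product]
    refine Finset.card_bij' (fun p _ => ⟨Function.update p.1 y p.2, p.1 y⟩)
      (fun p _ => (Function.update p.1 y p.2, p.1 y)) ?_ ?_ ?_ ?_
    · rintro ⟨c, w⟩ h
      simp only [mem_product, mem_filter, mem_univ, true_and, and_true] at h
      simp only [mem_sigma, mem_filter, mem_univ, true_and]
      exact ⟨(hC c w).2 h.1, by rw [hg]; exact h.2⟩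
    · rintro ⟨c, w⟩ h
      simp only [mem_sigma, mem_filter, mem_univ, true_and] at h
      simp only [mem_product, mem_filter, mem_univ, true_and, and_true]
      exact ⟨(hC c w).2 h.1, by rw [hg]; simpa using h.2⟩
    · rintro ⟨c, w⟩ h
      simp
    · rintro ⟨c, w⟩ h
      simp
  have h1 : ∀ c, Fintype.card W ≤ 2 * (univ.filter fun w : W => lb w ∉ g c).card := by
    intro c
    have e1 : (univ.filter fun w : W => lb w ∈ g c).card * M ≤ (g c).card * Fintype.card W := by
      have : (univ.filter fun w : W => lb w ∈ g c) =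
          (g c).biUnion fun a => univ.filter fun w : W => lb w = a := by
        ext w
        simp
      rw [this]
      refine (Nat.mul_le_mul_right _ card_biUnion_le).trans ?_
      rw [sum_mul]
      refine (sum_le_sum fun a _ => hlb a).trans ?_
      rw [sum_const, smul_eq_mul]
    have e2 : 2 * (univ.filter fun w : W => lb w ∈ g c).card ≤ Fintype.card W := by
      have : (2 * (univ.filter fun w : W => lb w ∈ g c).card) * M ≤ Fintype.card W * M := by
        calc _ = 2 * ((univ.filter fun w : W => lb w ∈ g c).card * M) := by ring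
          _ ≤ 2 * ((g c).card * Fintype.card W) := Nat.mul_le_mul_left _ e1
          _ = (2 * (g c).card) * Fintype.card W := by ring
          _ ≤ M * Fintype.card W := Nat.mul_le_mul_right _ (hgc c)
          _ = _ := by ring
      exact Nat.le_of_mul_le_mul_right this hM
    have e3 := Finset.card_filter_add_card_filter_not (s := (univ : Finset W))
      (fun w : W => lb w ∈ g c)
    rw [card_univ] at e3
    omega
  have h2 : (univ.filter fun c : Fin n → W => C c).card * Fintype.card W ≤
      (2 * (univ.filter fun c : Fin n → W => C c ∧ lb (c y) ∉ g c).card) * Fintype.card W := by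
    calc _ = ∑ c ∈ univ.filter (fun c : Fin n → W => C c), Fintype.card W := by
          rw [Finset.sum_const, smul_eq_mul]
      _ ≤ ∑ c ∈ univ.filter (fun c : Fin n → W => C c),
            2 * (univ.filter fun w : W => lb w ∉ g c).card := sum_le_sum fun c _ => h1 c
      _ = 2 * ((univ.filter fun c : Fin n → W => C c ∧ lb (c y) ∉ g c).card *
            Fintype.card W) := by rw [← Finset.mul_sum, key]
      _ = _ := by ring
  exact Nat.le_of_mul_le_mul_right h2 hpos

theorem card_injOn (lb : W → ℕ) (M : ℕ)
    (hlb : ∀ a, (univ.filter fun w : W => lb w = a).card * M ≤ Fintype.card W) (hM : 0 < M) :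
    ∀ S : Finset ℕ, S ⊆ range n → 2 * S.card ≤ M →
      Fintype.card (Fin n → W) ≤
        2 ^ S.card * (univ.filter fun c : Fin n → W => Set.InjOn (kc lb c) (S : Set ℕ)).card := by
  classical
  intro S
  induction S using Finset.induction_on with
  | empty => simp
  | insert y S hy ih =>
    intro hS hcard
    rw [card_insert_of_notMem hy] at hcard ⊢
    have ih := ih (fun x hx => hS (mem_insert_of_mem hx)) (by omega)
    have hyn : y < n := mem_range.1 (hS (mem_insert_self y S))
    have hupd : ∀ (c : Fin n → W) (w : W) (z : ℕ), z ≠ y →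
        kc lb (Function.update c ⟨y, hyn⟩ w) z = kc lb c z := by
      intro c w z hz
      unfold kc
      split_ifs with h
      · rw [Function.update_of_ne]
        intro h'
        exact hz (congrArg Fin.val h')
      · rfl
    have hupdS : ∀ (c : Fin n → W) (w : W), ∀ z ∈ S,
        kc lb (Function.update c ⟨y, hyn⟩ w) z = kc lb c z := by
      intro c w z hz
      exact hupd c w z (fun h => hy (h ▸ hz))
    have h1 := card_avoid (n := n) lb M hlb hM
      (fun c : Fin n → W => Set.InjOn (kc lb c) (S : Set ℕ))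
      (fun c => S.image (kc lb c)) ⟨y, hyn⟩ (by
        intro c w
        constructor
        · intro h a ha b hb hab
          exact h ha hb (by rw [hupdS c w a ha, hupdS c w b hb]; exact hab)
        · intro h a ha b hb hab
          rw [hupdS c w a ha, hupdS c w b hb] at hab
          exact h ha hb hab) (by
        intro c w
        refine Finset.image_congr ?_
        intro a ha
        exact hupdS c w a ha) (by
        intro c
        have := card_image_le (s := S) (f := kc lb c)
        omega)
    have h2 : (univ.filter fun c : Fin n → W =>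
        Set.InjOn (kc lb c) (S : Set ℕ) ∧ lb (c ⟨y, hyn⟩) ∉ S.image (kc lb c)) =
        (univ.filter fun c : Fin n → W => Set.InjOn (kc lb c) ((insert y S : Finset ℕ) : Set ℕ)) := by
      ext c
      rw [mem_filter, mem_filter, Finset.coe_insert, Set.injOn_insert (by simpa using hy)]
      have : kc lb c y = lb (c ⟨y, hyn⟩) := by simp [kc, hyn]
      rw [this]
      simp
    rw [h2] at h1
    calc _ ≤ 2 ^ S.card * (univ.filter fun c : Fin n → W =>
          Set.InjOn (kc lb c) (S : Set ℕ)).card := ih
      _ ≤ 2 ^ S.card * (2 * (univ.filter fun c : Fin n → W =>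
          Set.InjOn (kc lb c) ((insert y S : Finset ℕ) : Set ℕ)).card) := Nat.mul_le_mul_left _ h1
      _ = _ := by rw [pow_succ]; ring

theorem card_all {X : Type} [Fintype X] (N : ℕ) (p : X → Prop) [DecidablePred p] :
    (univ.filter fun f : Fin N → X => ∀ i, p (f i)).card = (univ.filter p).card ^ N := by
  classical
  have : (univ.filter fun f : Fin N → X => ∀ i, p (f i)) =
      Fintype.piFinset (fun _ : Fin N => univ.filter p) := by
    ext f
    simp [Fintype.mem_piFinset]
  rw [this, Fintype.card_piFinset]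
  simp

/-- a family of labellings such that each set of at most `m` vertices is labelled injectively by some
member -/
def Perfect (lb : W → ℕ) (m : ℕ) {N : ℕ} (Λ : Fin N → Fin n → W) : Prop :=
  ∀ S : Finset ℕ, S ⊆ range n → S.card ≤ m → ∃ i, Set.InjOn (kc lb (Λ i)) (S : Set ℕ)

theorem exp_neg_two_le : Real.exp (-2) ≤ 1 / 4 := by
  have h1 : (2 : ℝ) ≤ Real.exp 1 := by
    have := Real.add_one_le_exp (1 : ℝ)
    linarith
  have h2 : Real.exp 2 = Real.exp 1 * Real.exp 1 := by
    rw [← Real.exp_add]
    norm_num
  rw [Real.exp_neg, h2]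
  rw [inv_le_comm₀ (by positivity) (by norm_num)]
  norm_num
  nlinarith

theorem card_imperfect (lb : W → ℕ) (M : ℕ)
    (hlb : ∀ a, (univ.filter fun w : W => lb w = a).card * M ≤ Fintype.card W) (hM : 0 < M)
    (m N : ℕ) (hm : 2 * m ≤ M) (hN : 2 * n * 2 ^ m ≤ N) :
    ∃ D : Finset (Fin N → Fin n → W), (∀ Λ, Λ ∉ D → Perfect lb m Λ) ∧
      (D.card : ℝ) ≤ (Fintype.card (Fin n → W) : ℝ) ^ N * (1 / 2) ^ n := by
  classical
  set X := Fintype.card (Fin n → W) with hX
  let D : Finset (Fin N → Fin n → W) :=
    ((range n).powerset.filter fun S => S.card ≤ m).biUnion fun S =>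
      univ.filter fun Λ : Fin N → Fin n → W => ∀ i, ¬ Set.InjOn (kc lb (Λ i)) (S : Set ℕ)
  refine ⟨D, ?_, ?_⟩
  · intro Λ hΛ S hS hc
    by_contra hcon
    push Not at hcon
    apply hΛ
    simp only [D, mem_biUnion]
    exact ⟨S, by rw [mem_filter, mem_powerset]; exact ⟨hS, hc⟩, by
      rw [mem_filter]; exact ⟨mem_univ _, hcon⟩⟩
  · -- one set
    have hone : ∀ S ∈ (range n).powerset.filter (fun S => S.card ≤ m),
        ((univ.filter fun Λ : Fin N → Fin n → W =>
          ∀ i, ¬ Set.InjOn (kc lb (Λ i)) (S : Set ℕ)).card : ℝ) ≤ (X : ℝ) ^ N * (1 / 4) ^ n := by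
      intro S hS
      rw [mem_filter, mem_powerset] at hS
      have h1 := card_injOn (n := n) lb M hlb hM S hS.1 (by omega)
      have h2 := Finset.card_filter_add_card_filter_not (s := (univ : Finset (Fin n → W)))
        (fun c => Set.InjOn (kc lb c) (S : Set ℕ))
      rw [card_univ, ← hX] at h2
      rw [← hX] at h1
      have h3 := card_all (X := Fin n → W) N (fun c => ¬ Set.InjOn (kc lb c) (S : Set ℕ))
      rw [h3]
      set a := (univ.filter fun c : Fin n → W => Set.InjOn (kc lb c) (S : Set ℕ)).card
      set b := (univ.filter fun c : Fin n → W => ¬ Set.InjOn (kc lb c) (S : Set ℕ)).card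
      have h4 : (X : ℝ) ≤ 2 ^ m * a := by
        have : X ≤ 2 ^ m * a :=
          h1.trans (Nat.mul_le_mul_right _ (Nat.pow_le_pow_right (by norm_num) hS.2))
        exact_mod_cast this
      have h5 : (a : ℝ) + b = X := by exact_mod_cast h2
      have h6 : (b : ℝ) ≤ X * (1 - 1 / 2 ^ m) := by
        have h7 : (X : ℝ) / 2 ^ m ≤ a := by
          rw [div_le_iff₀ (by positivity)]
          linarith
        have h8 : (X : ℝ) * (1 - 1 / 2 ^ m) = X - X / 2 ^ m := by ring
        rw [h8]
        linarith
      have h7 : (0 : ℝ) ≤ 1 - 1 / 2 ^ m := by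
        have : (1 : ℝ) / 2 ^ m ≤ 1 := by
          rw [div_le_one (by positivity)]
          exact one_le_pow₀ (by norm_num)
        linarith
      have h8 : (1 - 1 / 2 ^ m : ℝ) ≤ Real.exp (-(1 / 2 ^ m)) := Real.one_sub_le_exp_neg _
      have h9 : (1 - 1 / 2 ^ m : ℝ) ^ N ≤ (1 / 4) ^ n := by
        calc (1 - 1 / 2 ^ m : ℝ) ^ N ≤ Real.exp (-(1 / 2 ^ m)) ^ N := pow_le_pow_left₀ h7 h8 N
          _ = Real.exp (-((N : ℝ) / 2 ^ m)) := by
            rw [← Real.exp_nat_mul]
            congr 1
            ring
          _ ≤ Real.exp ((n : ℝ) * (-2)) := by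
            rw [Real.exp_le_exp]
            have h10 : (2 * n : ℝ) * 2 ^ m ≤ N := by exact_mod_cast hN
            have h11 : (2 * n : ℝ) ≤ N / 2 ^ m := by
              rw [le_div_iff₀ (by positivity)]
              exact h10
            linarith
          _ = Real.exp (-2) ^ n := by rw [Real.exp_nat_mul]
          _ ≤ (1 / 4) ^ n := pow_le_pow_left₀ (Real.exp_pos _).le exp_neg_two_le n
      calc ((b ^ N : ℕ) : ℝ) = (b : ℝ) ^ N := by push_cast; rfl
        _ ≤ (X * (1 - 1 / 2 ^ m)) ^ N := pow_le_pow_left₀ (Nat.cast_nonneg _) h6 N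
        _ = (X : ℝ) ^ N * (1 - 1 / 2 ^ m) ^ N := mul_pow _ _ _
        _ ≤ (X : ℝ) ^ N * (1 / 4) ^ n := mul_le_mul_of_nonneg_left h9 (by positivity)
    have h1 : (D.card : ℝ) ≤ ∑ S ∈ (range n).powerset.filter (fun S => S.card ≤ m),
        ((univ.filter fun Λ : Fin N → Fin n → W =>
          ∀ i, ¬ Set.InjOn (kc lb (Λ i)) (S : Set ℕ)).card : ℝ) := by
      exact_mod_cast card_biUnion_le
    refine h1.trans ((sum_le_sum hone).trans ?_)
    rw [sum_const, nsmul_eq_mul]
    have h2 : (((range n).powerset.filter (fun S => S.card ≤ m)).card : ℝ) ≤ 2 ^ n := by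
      have := card_filter_le ((range n).powerset) (fun S => S.card ≤ m)
      rw [card_powerset, card_range] at this
      exact_mod_cast this
    calc _ ≤ (2 : ℝ) ^ n * ((X : ℝ) ^ N * (1 / 4) ^ n) :=
          mul_le_mul_of_nonneg_right h2 (by positivity)
      _ = (X : ℝ) ^ N * (2 ^ n * (1 / 4) ^ n) := by ring
      _ = (X : ℝ) ^ N * (1 / 2) ^ n := by rw [← mul_pow]; norm_num

end Pool.Agent.J4H94.NRC
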