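import Pool.Agent.J4H94.NRC.PolyMain
import Pool.Agent.J4H94.NRC.Count
import Pool.Agent.J4H94.NRC.Label

/-!
# The algorithm on random bits
-/

namespace Pool.Agent.J4H94.NRC

open Finset Pool.Agent.NPC

/-! ### Random words -/

theorem valB_inj : ∀ l l' : List Bool, l.length = l'.length → valB l = valB l' → l = l' := by
  intro l
  induction l with
  | nil =>
    intro l' h _
    exact (List.length_eq_zero_iff.1 (by simpa using h.symm)).symm
  | cons b l ih =>
    intro l' h hv
    cases l' with
    | nil => simp at h
    | cons b' l' =>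
      simp only [valB_cons] at hv
      have h1 : b = b' := by
        cases b <;> cases b' <;> simp at hv ⊢ <;> omega
      subst h1
      have h2 : valB l = valB l' := by omega
      rw [ih l' (by simpa using h) h2]

/-- the number formed by the first `j` bits of a word -/
def rdW {D : ℕ} (j : ℕ) (w : Fin D → Bool) : ℕ :=
  valB ((List.range j).map fun b => if h : b < D then w ⟨b, h⟩ else false)

theorem rdW_lt {D : ℕ} (j : ℕ) (w : Fin D → Bool) : rdW j w < 2 ^ j := by
  have := valB_lt ((List.range j).map fun b => if h : b < D then w ⟨b, h⟩ else false)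
  unfold rdW
  simpa using this

theorem card_rdW {D j : ℕ} (hj : j ≤ D) (a : ℕ) :
    (univ.filter fun w : Fin D → Bool => rdW j w = a).card * 2 ^ j ≤
      Fintype.card (Fin D → Bool) := by
  classical
  have h1 : (2 : ℕ) ^ j = (univ : Finset (Fin j → Bool)).card := by simp
  rw [h1, ← card_product, ← Finset.card_univ (α := Fin D → Bool)]
  refine Finset.card_le_card_of_injOn
    (fun p b => if h : (b : ℕ) < j then p.2 ⟨b, h⟩ else p.1 b) (fun _ _ => by simp) ?_
  rintro ⟨w, f⟩ hw ⟨w', f'⟩ hw' h
  simp only [coe_product, coe_filter, mem_univ, true_and, coe_univ, Set.mem_prod, Set.mem_ofPred_eq,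
    Set.mem_univ, and_true] at hw hw'
  simp only at h
  have h2 : f = f' := by
    funext b
    have := congrFun h ⟨b, lt_of_lt_of_le b.2 hj⟩
    simpa using this
  have h3 : ((List.range j).map fun b => if h : b < D then w ⟨b, h⟩ else false) =
      ((List.range j).map fun b => if h : b < D then w' ⟨b, h⟩ else false) :=
    valB_inj _ _ (by simp) (hw.trans hw'.symm)
  have h4 : w = w' := by
    funext b
    by_cases hb : (b : ℕ) < j
    · have := List.map_inj_left.1 h3 b (List.mem_range.2 hb)
      simpa using this
    · have := congrFun h b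
      simpa [hb] using this
  rw [h2, h4]

/-! ### Random bits -/

/-- the bit string formed by an array of random words -/
def arrEquiv (R n D : ℕ) : (Fin R → Fin n → Fin D → Bool) ≃ (Fin (R * n * D) → Bool) where
  toFun ρ x := ρ (finProdFinEquiv.symm (finProdFinEquiv.symm x).1).1
    (finProdFinEquiv.symm (finProdFinEquiv.symm x).1).2 (finProdFinEquiv.symm x).2
  invFun b i v d := b (finProdFinEquiv (finProdFinEquiv (i, v), d))
  left_inv ρ := by
    funext i v d
    simp
  right_inv b := by
    funext x
    simp only [Prod.mk.eta, Equiv.apply_symm_apply]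

theorem arr_getD (R n D : ℕ) (ρ : Fin R → Fin n → Fin D → Bool) (i : Fin R) (v : Fin n)
    (d : Fin D) :
    (List.ofFn (arrEquiv R n D ρ)).getD (((i : ℕ) * n + v) * D + d) false = ρ i v d := by
  have h1 : ((i : ℕ) * n + v) * D + d =
      (finProdFinEquiv (finProdFinEquiv (i, v), d) : Fin (R * n * D)) := by
    simp [finProdFinEquiv]
    ring
  rw [h1, List.getD_eq_getElem _ _ (by
    rw [List.length_ofFn]; exact (finProdFinEquiv (finProdFinEquiv (i, v), d)).2), List.getElem_ofFn]
  have : arrEquiv R n D ρ (finProdFinEquiv (finProdFinEquiv (i, v), d)) = ρ i v d := by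
    change ρ (finProdFinEquiv.symm (finProdFinEquiv.symm (finProdFinEquiv
      (finProdFinEquiv (i, v), d))).1).1 (finProdFinEquiv.symm (finProdFinEquiv.symm (finProdFinEquiv
      (finProdFinEquiv (i, v), d))).1).2 (finProdFinEquiv.symm (finProdFinEquiv
      (finProdFinEquiv (i, v), d))).2 = _
    simp only [Equiv.symm_apply_apply]
  exact this

/-- the list of the numbers read off a function -/
def conc {W : Type} {n : ℕ} (κ : W → ℕ) (c : Fin n → W) : List ℕ := List.ofFn fun v => κ (c v)

theorem conc_length {W : Type} {n : ℕ} (κ : W → ℕ) (c : Fin n → W) : (conc κ c).length = n := by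
  simp [conc]

theorem conc_getD {W : Type} {n : ℕ} (κ : W → ℕ) (c : Fin n → W) (x : ℕ) :
    (conc κ c).getD x 0 = kc κ c x := by
  unfold conc kc
  split_ifs with h
  · rw [List.getD_eq_getElem _ _ (by simpa using h), List.getElem_ofFn]
  · rw [List.getD_eq_default]
    simpa using h

theorem row_eq {R n D : ℕ} (ρ : Fin R → Fin n → Fin D → Bool) (i : Fin R) (j : ℕ) (hj : j ≤ D) :
    row (List.ofFn (arrEquiv R n D ρ)) n D i j = conc (rdW j) (ρ i) := by
  unfold row conc
  apply List.ext_getElem
  · simp
  · intro v h1 h2
    simp only [List.getElem_map, List.getElem_range, List.getElem_ofFn]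
    simp only [List.length_map, List.length_range] at h1
    unfold rd rdW
    congr 1
    apply List.map_congr_left
    intro b hb
    rw [List.mem_range] at hb
    have hbD : b < D := lt_of_lt_of_le hb hj
    rw [dif_pos hbD]
    exact arr_getD R n D ρ i ⟨v, h1⟩ ⟨b, hbD⟩

/-! ### The abstract and the concrete procedure -/

section Corr

variable {W : Type} {n : ℕ}

/-- the search for violated bad events, for colourings given by words -/
def findW (A : List (List Bool)) (Λ : List (List ℕ)) (κ : W → ℕ) (c : Fin n → W) (u : ℕ) :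
    Option (List ℕ × List ℕ) :=
  findA A Λ (conc κ c) u

theorem stepA_conc (A : List (List Bool)) (hA : A.length = n) (Λ : List (List ℕ)) (κ : W → ℕ)
    (s : (Fin n → W) × List ℕ) (ω : Fin n → W) :
    stepA A Λ (conc κ s.1, s.2) (conc κ ω) =
      (conc κ (step (findW A Λ κ) s ω).1, (step (findW A Λ κ) s ω).2) := by
  obtain ⟨c, σ⟩ := s
  cases σ with
  | nil => rfl
  | cons u st =>
    cases hf : findA A Λ (conc κ c) u with
    | none =>
      have hf' : findW A Λ κ c u = none := hf
      simp only [stepA, step, hf, hf']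
    | some B =>
      have hf' : findW A Λ κ c u = some B := hf
      simp only [stepA, step, hf, hf']
      congr 1
      apply List.ext_getElem
      · simp [conc, hA]
      · intro v h1 h2
        have hv : v < n := by simpa [hA] using h1
        simp only [List.getElem_map, List.getElem_range]
        rw [conc_getD, conc_getD]
        simp only [conc, List.getElem_ofFn, upd, kc, hv, dif_pos]
        split_ifs <;> rfl

theorem foldl_conc (A : List (List Bool)) (hA : A.length = n) (Λ : List (List ℕ)) (κ : W → ℕ) :
    ∀ (l : List (Fin n → W)) (s : (Fin n → W) × List ℕ),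
    (l.map (conc κ)).foldl (stepA A Λ) (conc κ s.1, s.2) =
      (conc κ (l.foldl (step (findW A Λ κ)) s).1, (l.foldl (step (findW A Λ κ)) s).2) := by
  intro l
  induction l with
  | nil => intro s; rfl
  | cons ω l ih =>
    intro s
    rw [List.map_cons, List.foldl_cons, List.foldl_cons, stepA_conc A hA, ih]

theorem viol_iff_conc (κ : W → ℕ) (c : Fin n → W) (B : List ℕ × List ℕ) :
    Viol κ c B ↔ B.1.map (fun z => (conc κ c).getD z 0) = B.2.map (fun z => (conc κ c).getD z 0) := by
  unfold Viol
  have : (fun z => (conc κ c).getD z 0) = kc κ c := by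
    funext z
    exact conc_getD κ c z
  rw [this]

theorem findW_sound (A : List (List Bool)) (hA : A.length = n) (Λ : List (List ℕ)) (κ : W → ℕ)
    (c : Fin n → W) (u : ℕ) (B : List ℕ × List ℕ) (h : findW A Λ κ c u = some B) :
    Valid (fun x y => adjB A x y = true) n (Lf n) B ∧ u ∈ B.1 ++ B.2 ∧ Viol κ c B := by
  have := findB_sound A Λ (Lf A.length) (Mf A.length) (conc κ c) u B h
  rw [hA] at this
  exact ⟨this.1, this.2.1, (viol_iff_conc κ c B).2 this.2.2⟩

theorem findW_complete {X : Type} {N : ℕ} (A : List (List Bool)) (hA : A.length = n)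
    (lb : X → ℕ) (hlb : ∀ w, lb w < Mf n) (Λ : Fin N → Fin n → X)
    (hΛ : Perfect lb (2 * Lf n) Λ) (κ : W → ℕ) (c : Fin n → W) (u : ℕ)
    (h : findW A (List.ofFn fun i => conc lb (Λ i)) κ c u = none)
    (B : List ℕ × List ℕ) (hB : Valid (fun x y => adjB A x y = true) n (Lf n) B)
    (hu : u ∈ B.1 ++ B.2) : ¬ Viol κ c B := by
  intro hv
  rw [viol_iff_conc] at hv
  have hS1 : (B.1 ++ B.2).toFinset ⊆ range n := by
    intro x hx
    rw [List.mem_toFinset] at hx
    exact mem_range.2 (hB.lt x hx)
  have hS2 : (B.1 ++ B.2).toFinset.card ≤ 2 * Lf n := by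
    rw [List.toFinset_card_of_nodup hB.nd, List.length_append, ← hB.len]
    have := hB.le
    omega
  obtain ⟨i, hi⟩ := hΛ _ hS1 hS2
  refine findB_complete A (List.ofFn fun i => conc lb (Λ i)) (Lf A.length) (Mf A.length)
    (conc κ c) u B (by rw [hA]; exact hB) hu hv (conc lb (Λ i)) ?_ ?_ ?_ h
  · rw [List.mem_ofFn]
    exact ⟨i, rfl⟩
  · intro z hz
    rw [hA] at hz
    rw [conc_getD, hA]
    unfold kc
    rw [dif_pos hz]
    exact hlb _
  · unfold labs
    have : (fun z => (conc lb (Λ i)).getD z 0) = kc lb (Λ i) := by
      funext z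
      exact conc_getD lb (Λ i) z
    rw [this]
    refine List.Nodup.map_on ?_ hB.nd
    intro x hx y hy hxy
    exact hi (by simpa using hx) (by simpa using hy) hxy

/-- For a perfect family of labellings and a run with few resamplings, no bad event is violated at
the end. -/
theorem run_good {X : Type} {N : ℕ} (A : List (List Bool)) (hA : A.length = n)
    (lb : X → ℕ) (hlb : ∀ w, lb w < Mf n) (Λ : Fin N → Fin n → X)
    (hΛ : Perfect lb (2 * Lf n) Λ) (κ : W → ℕ) (c : Fin n → W) (l : List (Fin n → W))
    (hl : l.length = pT n)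
    (hres : nres (findW A (List.ofFn fun i => conc lb (Λ i)) κ) l c (List.range n) < 3 * n) :
    ∀ B, Valid (fun x y => adjB A x y = true) n (Lf n) B →
      ¬ Viol κ (l.foldl (step (findW A (List.ofFn fun i => conc lb (Λ i)) κ))
        (c, List.range n)).1 B := by
  set find := findW A (List.ofFn fun i => conc lb (Λ i)) κ with hfind
  have hempty : (l.foldl (step find) (c, List.range n)).2 = [] := by
    by_contra hne
    have h1 := length_lt find (Lf n) (by
      intro c u B h
      have := (findW_sound A hA _ κ c u B h).1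
      exact ⟨this.le, by rw [← this.len]; exact this.le⟩) l c (List.range n) hne
    rw [List.length_range, hl] at h1
    unfold pT at h1
    have h2 := Lf_le n
    have h3 : 2 * Lf n * nres find l c (List.range n) ≤ 2 * (n + 2) * (3 * n) :=
      Nat.mul_le_mul (by omega) hres.le
    have h4 : 2 * (n + 2) * (3 * n) = 6 * (n * (n + 2)) := by ring
    omega
  intro B hB hv
  have h1 := invariant find κ (Valid (fun x y => adjB A x y = true) n (Lf n))
    (fun c u h B hB hu => findW_complete A hA lb hlb Λ hΛ κ c u h B hB hu)
    (fun c u B h => (findW_sound A hA _ κ c u B h).2.1) l c (List.range n) (by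
      intro B hB _
      obtain ⟨x, hx⟩ : ∃ x, x ∈ B.1 := List.exists_mem_of_length_pos hB.pos
      have hx' : x ∈ B.1 ++ B.2 := List.mem_append_left _ hx
      exact ⟨x, hx', List.mem_range.2 (hB.lt x hx')⟩) B hB hv
  obtain ⟨x, _, hx⟩ := h1
  rw [hempty] at hx
  simp at hx

end Corr

end Pool.Agent.J4H94.NRC
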