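import Pool.Agent.J4H94.NRC.Graph

/-!
# The final statements about the algorithm
-/

namespace Pool.Agent.J4H94.NRC

open Finset Pool.Agent.NPC

/-- Nonrepetitive colourings. -/
def NonrepC {V : Type} (G : SimpleGraph V) (c : V → ℕ) : Prop :=
  ∀ (t : ℕ) (v : ℕ → V), 1 ≤ t → (∀ i < 2 * t, ∀ j < 2 * t, v i = v j → i = j) →
    (∀ i, i + 1 < 2 * t → G.Adj (v i) (v (i + 1))) → ∃ i < t, c (v i) ≠ c (v (t + i))



theorem nonrep_of_fine {n : ℕ} (G : SimpleGraph (Fin n)) [DecidableRel G.Adj] (c : Fin n → ℕ)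
    (h : Fine (matrix G) (List.ofFn c)) : NonrepC G c := by
  intro t v ht hinj hadj
  by_contra hcon
  push Not at hcon
  have hcol : ∀ x : Fin n, (List.ofFn c).getD (x : ℕ) 0 = c x := by
    intro x
    rw [List.getD_eq_getElem _ _ (by simp), List.getElem_ofFn]
  let l₁ : List ℕ := (List.range t).map fun i => (v i : ℕ)
  let l₂ : List ℕ := (List.range t).map fun i => (v (t + i) : ℕ)
  have hl : l₁ ++ l₂ = (List.range (2 * t)).map fun i => (v i : ℕ) := by
    have : List.range (2 * t) = List.range t ++ (List.range t).map (fun i => t + i) := by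
      rw [two_mul, List.range_add]
    rw [this, List.map_append, List.map_map]
    rfl
  have hL : 1 ≤ Lf (matrix G).length := by unfold Lf; omega
  refine nonrep_of_no_viol (fun x y => adjB (matrix G) x y = true) (matrix G).length
    (Lf (matrix G).length) hL (fun z => (List.ofFn c).getD z 0) h l₁ l₂ ?_ ?_ ?_ ?_ ?_
  · apply List.ne_nil_of_length_pos
    simp only [l₁, List.length_map, List.length_range]
    omega
  · rw [hl, List.isChain_iff_getElem]
    intro i hi
    simp only [List.length_map, List.length_range] at hi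
    simp only [List.getElem_map, List.getElem_range]
    rw [adjB_matrix]
    exact ⟨(v i).2, (v (i + 1)).2, hadj i hi⟩
  · rw [hl]
    refine List.Nodup.map_on ?_ List.nodup_range
    intro i hi j hj hij
    rw [List.mem_range] at hi hj
    exact hinj i hi j hj (Fin.ext hij)
  · intro x hx
    rw [hl, List.mem_map] at hx
    obtain ⟨i, _, rfl⟩ := hx
    rw [matrix_length]
    exact (v i).2
  · simp only [l₁, l₂, List.map_map]
    apply List.map_congr_left
    intro i hi
    rw [List.mem_range] at hi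
    simp only [Function.comp_apply]
    rw [hcol, hcol]
    exact hcon i hi

/-- the number of colours -/
theorem two_pow_jf {n : ℕ} (G : SimpleGraph (Fin n)) [DecidableRel G.Adj] :
    2 ^ jf (matrix G) ≤ max 1 (72 * G.maxDegree ^ 2) := by
  have h1 := maxdeg_le_maxDegree G
  rcases Nat.eq_zero_or_pos (maxdeg (matrix G)) with h0 | h0
  · unfold jf
    rw [h0]
    simp
  · refine le_trans ?_ (le_max_right _ _)
    unfold jf
    set x := 36 * (maxdeg (matrix G) * maxdeg (matrix G)) with hx
    have hx0 : 0 < x := by positivity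
    have h2 : 0 < x.size := Nat.size_pos.2 hx0
    have h3 : 2 ^ (x.size - 1) ≤ x := Nat.lt_size.1 (by omega)
    obtain ⟨m, hm⟩ : ∃ m, x.size = m + 1 := ⟨x.size - 1, by omega⟩
    rw [hm] at h3 ⊢
    simp only [Nat.add_sub_cancel] at h3
    rw [pow_succ]
    have h4 := Nat.mul_le_mul h1 h1
    rw [pow_two]
    omega

/-- the form of the output -/
theorem alg_form {n : ℕ} (G : SimpleGraph (Fin n)) [DecidableRel G.Adj]
    (b : Fin (pR n * n * pD n) → Bool) :
    ∃ c : Fin n → ℕ, alg (matrix G) (List.ofFn b) = List.ofFn c ∧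
      ∀ v, c v < max 1 (72 * G.maxDegree ^ 2) := by
  obtain ⟨⟨Λ, c, ω⟩, rfl⟩ := (allEquiv n).surjective b
  rw [alg_eq (matrix G) (matrix_length G) (maxdeg_le_card G)]
  exact ⟨_, rfl, fun v => lt_of_lt_of_le (rdW_lt _ _) (two_pow_jf G)⟩

theorem numeric (n : ℕ) (hn : 1 ≤ n) : ((1 / 2 : ℝ) ^ n + (3 / 16) ^ n) ≤ 1 / n := by
  have h1 := two_mul_le_two_pow n hn
  have h2 : (2 * n : ℝ) ≤ 2 ^ n := by exact_mod_cast h1
  have h3 : (3 / 16 : ℝ) ^ n ≤ (1 / 2) ^ n := pow_le_pow_left₀ (by norm_num) (by norm_num) n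
  have hn0 : (0 : ℝ) < n := by exact_mod_cast hn
  have h4 : (1 / 2 : ℝ) ^ n ≤ 1 / (2 * n) := by
    rw [one_div_pow]
    exact one_div_le_one_div_of_le (by positivity) h2
  have h5 : (1 : ℝ) / (2 * n) + 1 / (2 * n) = 1 / n := by
    field_simp
    ring
  linarith

theorem prob_ge {n : ℕ} (G : SimpleGraph (Fin n)) [DecidableRel G.Adj] :
    1 - 1 / (n : ℝ) ≤ (Nat.card {r : Fin (pR n * n * pD n) → Bool //
      Fine (matrix G) (alg (matrix G) (List.ofFn r))} : ℝ) / 2 ^ (pR n * n * pD n) := by
  have htot : (Nat.card {b : Fin (pR n * n * pD n) → Bool //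
        Fine (matrix G) (alg (matrix G) (List.ofFn b))} : ℝ) +
      Nat.card {b : Fin (pR n * n * pD n) → Bool //
        ¬ Fine (matrix G) (alg (matrix G) (List.ofFn b))} = 2 ^ (pR n * n * pD n) := by
    classical
    have h1 := Fintype.card_subtype_compl (fun b : Fin (pR n * n * pD n) → Bool =>
      Fine (matrix G) (alg (matrix G) (List.ofFn b)))
    have h2 := Fintype.card_subtype_le (fun b : Fin (pR n * n * pD n) → Bool =>
      Fine (matrix G) (alg (matrix G) (List.ofFn b)))
    have h3 : Fintype.card (Fin (pR n * n * pD n) → Bool) = 2 ^ (pR n * n * pD n) := by simp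
    rw [Nat.card_eq_fintype_card, Nat.card_eq_fintype_card]
    have h4 : Fintype.card {b : Fin (pR n * n * pD n) → Bool //
        Fine (matrix G) (alg (matrix G) (List.ofFn b))} +
        Fintype.card {b : Fin (pR n * n * pD n) → Bool //
        ¬ Fine (matrix G) (alg (matrix G) (List.ofFn b))} = 2 ^ (pR n * n * pD n) := by
      omega
    exact_mod_cast h4
  have hpos : (0 : ℝ) < 2 ^ (pR n * n * pD n) := by positivity
  rw [le_div_iff₀ hpos]
  rcases Nat.eq_zero_or_pos (maxdeg (matrix G)) with h0 | h0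
  · have h1 : Nat.card {b : Fin (pR n * n * pD n) → Bool //
        ¬ Fine (matrix G) (alg (matrix G) (List.ofFn b))} = 0 := by
      rw [Nat.card_eq_zero]
      left
      exact ⟨fun b => b.2 (fine_of_maxdeg_eq_zero G h0 _)⟩
    rw [h1] at htot
    have h2 : (0 : ℝ) ≤ 1 / n := by positivity
    have h3 : (0 : ℝ) ≤ 1 / n * 2 ^ (pR n * n * pD n) := by positivity
    have h4 : (1 - 1 / (n : ℝ)) * 2 ^ (pR n * n * pD n) =
      2 ^ (pR n * n * pD n) - 1 / n * 2 ^ (pR n * n * pD n) := by ring
    rw [h4]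
    push_cast at htot
    linarith
  · have hn : 1 ≤ n := h0.trans_le (maxdeg_le_card G)
    have h1 := count_bad hn (matrix G) (matrix_length G) (adjB_symm G) (card_adjB_le G) h0
      (maxdeg_le_card G)
    have h2 := mul_le_mul_of_nonneg_left (numeric n hn) hpos.le
    have h4 : (1 - 1 / (n : ℝ)) * 2 ^ (pR n * n * pD n) =
      2 ^ (pR n * n * pD n) - 2 ^ (pR n * n * pD n) * (1 / n) := by ring
    rw [h4]
    linarith

/-- the algorithm on bit strings -/
def main (x : List Bool) : List Bool :=
  bits ((unbits (List (List Bool) × List Bool) x).elim [] (fun p => alg p.1 p.2))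

theorem main_polyTime : PolyTime main := by
  apply polyTime_bits
  have h1 : NPC.Poly (fun p : List Bool × (List (List Bool) × List Bool) => alg p.2.1 p.2.2) :=
    pAlg (NPC.Poly.fst (NPC.Poly.snd NPC.Poly.id)) (NPC.Poly.snd (NPC.Poly.snd NPC.Poly.id))
  refine (NPC.Poly.optCases (o := fun x => unbits (List (List Bool) × List Bool) x)
    (g := fun _ => ([] : List ℕ)) (h := fun _ p => alg p.1 p.2) poly_unbits
    (NPC.Poly.const []) h1).congr fun x => ?_
  cases unbits (List (List Bool) × List Bool) x <;> rfl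

/-- the number of random bits, as a polynomial -/
noncomputable def mPoly : Polynomial ℕ :=
  (128 * (Polynomial.X * (Polynomial.X * Polynomial.X)) +
    (Polynomial.X + 6 * (Polynomial.X * (Polynomial.X + 2)) + 1)) * Polynomial.X *
    (36 * (Polynomial.X * Polynomial.X) + (4 * Polynomial.X + 8))

theorem mPoly_eval (n : ℕ) : mPoly.eval n = pR n * n * pD n := by
  unfold mPoly pR pN pT pD
  simp only [Polynomial.eval_add, Polynomial.eval_mul, Polynomial.eval_X, Polynomial.eval_ofNat,
    Polynomial.eval_one]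


theorem input_length : ∃ q : Polynomial ℕ, ∀ (n : ℕ) (G : SimpleGraph (Fin n)) [DecidableRel G.Adj]
    (r : Fin (mPoly.eval n) → Bool), (bits (matrix G, List.ofFn r)).length ≤ q.eval n := by
  refine ⟨(Polynomial.X * (4 * Polynomial.X + 2) + 1) + (4 * mPoly + 1) + 1, ?_⟩
  intro n G _ r
  have h1 : sz (matrix G) ≤ n * (4 * n + 2) + 1 := by
    have h2 := sz_le_length_mul (matrix G) (4 * n + 1) (by
      intro row hrow
      unfold matrix at hrow
      rw [List.mem_ofFn] at hrow
      obtain ⟨i, rfl⟩ := hrow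
      have h3 := sz_listBool_le (List.ofFn fun j => decide (G.Adj i j))
      rw [List.length_ofFn] at h3
      exact h3)
    rw [matrix_length] at h2
    exact h2
  have h2 := sz_listBool_le (List.ofFn r)
  rw [List.length_ofFn] at h2
  rw [bits_length, sz_pair]
  simp only [Polynomial.eval_add, Polynomial.eval_mul, Polynomial.eval_X, Polynomial.eval_ofNat,
    Polynomial.eval_one]
  omega

theorem success (n : ℕ) (G : SimpleGraph (Fin n)) [DecidableRel G.Adj] :
    1 - 1 / (n : ℝ) ≤ (Nat.card {r : Fin (mPoly.eval n) → Bool // ∃ c : Fin n → ℕ,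
      main (bits (matrix G, List.ofFn r)) = bits (List.ofFn c) ∧ NonrepC G c ∧
        ∀ v, c v < max 1 (72 * G.maxDegree ^ 2)} : ℝ) / 2 ^ mPoly.eval n := by
  rw [mPoly_eval]
  refine (prob_ge G).trans ?_
  refine div_le_div_of_nonneg_right ?_ (by positivity)
  rw [Nat.cast_le]
  refine Nat.card_mono (Set.toFinite _) ?_
  intro b hb
  obtain ⟨c, hc, hlt⟩ := alg_form G b
  have hb' : Fine (matrix G) (alg (matrix G) (List.ofFn b)) := hb
  rw [hc] at hb'
  refine ⟨c, ?_, nonrep_of_fine G c hb', hlt⟩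
  unfold main
  rw [unbits_bits, ← hc]
  rfl

end Pool.Agent.J4H94.NRC
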