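import Pool.Agent.J4H94.NRC.Term

/-!
# Finding violated bad events by colour coding

For a labelling of the vertices, we look for a pair of paths `P`, `Q` with the same colour sequence
and distinct labels on all vertices.  The pairs are built by a dynamic program, which keeps one
representative for every key consisting of the length, the first vertices of `P` and `Q`, the last
vertex of `P`, the set of labels, and whether a given vertex `u` occurs.
-/

namespace Pool.Agent.J4H94.NRC

/-- the entry `(i, j)` of an adjacency matrix -/
def adjB (A : List (List Bool)) (i j : ℕ) : Bool := (A.getD i []).getD j false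

/-- can `x` be put in front of the path `P`? -/
def hdOK (A : List (List Bool)) (x : ℕ) (P : List ℕ) : Bool :=
  match P with
  | [] => true
  | y :: _ => adjB A x y

/-- the labels of the vertices in the pair -/
def labs (lam : List ℕ) (B : List ℕ × List ℕ) : List ℕ := (B.1 ++ B.2).map (fun z => lam.getD z 0)

/-- can the pair `B` be extended by `x` and `y`? -/
def cand (A : List (List Bool)) (c lam : List ℕ) (B : List ℕ × List ℕ) (x y : ℕ) : Bool :=
  hdOK A x B.1 && (hdOK A y B.2 && (decide (c.getD x 0 = c.getD y 0) &&
    (!decide (lam.getD x 0 = lam.getD y 0) &&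
    (!decide (lam.getD x 0 ∈ labs lam B) && !decide (lam.getD y 0 ∈ labs lam B)))))

/-- the extensions of the pairs in a list -/
def ext (A : List (List Bool)) (c lam : List ℕ) (S : List (List ℕ × List ℕ)) :
    List (List ℕ × List ℕ) :=
  S.flatMap fun B => (List.range A.length).flatMap fun x => (List.range A.length).flatMap fun y =>
    bif cand A c lam B x y then [(x :: B.1, y :: B.2)] else []

/-- the keys -/
abbrev Key : Type := ℕ × Option ℕ × Option ℕ × Option ℕ × List Bool × Bool

instance : DecidableEq Key :=
  @instDecidableEqProd ℕ (Option ℕ × Option ℕ × Option ℕ × List Bool × Bool) inferInstance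
    inferInstance

/-- the key of a pair -/
def key (M : ℕ) (lam : List ℕ) (u : ℕ) (B : List ℕ × List ℕ) : Key :=
  (B.1.length, B.1.head?, B.2.head?, B.1.reverse.head?,
    (List.range M).map (fun a => decide (a ∈ labs lam B)), decide (u ∈ B.1 ++ B.2))

/-- keep one element for each key -/
def dd {α κ : Type} [DecidableEq κ] (key : α → κ) (l : List α) : List α :=
  l.foldr (fun x r => if key x ∈ r.map key then r else x :: r) []

section dd

variable {α κ : Type} [DecidableEq κ] (key : α → κ)

theorem dd_cons (x : α) (l : List α) :
    dd key (x :: l) = if key x ∈ (dd key l).map key then dd key l else x :: dd key l := rfl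

theorem dd_sublist (l : List α) : List.Sublist (dd key l) l := by
  induction l with
  | nil => exact List.Sublist.slnil
  | cons x l ih =>
    rw [dd_cons]
    split_ifs
    · exact ih.cons x
    · exact ih.cons_cons x

theorem dd_nodup (l : List α) : ((dd key l).map key).Nodup := by
  induction l with
  | nil => simp [dd]
  | cons x l ih =>
    rw [dd_cons]
    split_ifs with h
    · exact ih
    · rw [List.map_cons, List.nodup_cons]
      exact ⟨h, ih⟩

theorem dd_key (l : List α) (x : α) (hx : x ∈ l) : key x ∈ (dd key l).map key := by
  induction l with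
  | nil => simp at hx
  | cons y l ih =>
    rw [dd_cons]
    rcases List.mem_cons.1 hx with rfl | hx
    · split_ifs with h
      · exact h
      · simp
    · have := ih hx
      split_ifs with h
      · exact this
      · rw [List.map_cons]
        exact List.mem_cons_of_mem _ this

end dd

/-- one round of the dynamic program -/
def level (A : List (List Bool)) (c lam : List ℕ) (M u : ℕ) (S : List (List ℕ × List ℕ)) :
    List (List ℕ × List ℕ) :=
  dd (key M lam u) (S ++ ext A c lam S)

/-- the dynamic program -/
def dp (A : List (List Bool)) (c lam : List ℕ) (L M u : ℕ) : List (List ℕ × List ℕ) :=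
  (level A c lam M u)^[L] [([], [])]

/-- is the last vertex of `P` adjacent to the first one of `Q`? -/
def closeOK (A : List (List Bool)) (B : List ℕ × List ℕ) : Bool :=
  match B.1.reverse.head? with
  | none => false
  | some x => match B.2.head? with
    | none => false
    | some y => adjB A x y

/-- is the pair a bad event containing `u`? -/
def good (A : List (List Bool)) (L u : ℕ) (B : List ℕ × List ℕ) : Bool :=
  decide (u ∈ B.1 ++ B.2) && (decide (B.1.length = L) || closeOK A B)

/-- look for a violated bad event containing `u` -/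
def findB (A : List (List Bool)) (Λ : List (List ℕ)) (L M : ℕ) (c : List ℕ) (u : ℕ) :
    Option (List ℕ × List ℕ) :=
  ((Λ.flatMap fun lam => dp A c lam L M u).filter (good A L u)).head?

/-- The pairs considered by the dynamic program. -/
structure PV (A : List (List Bool)) (c lam : List ℕ) (B : List ℕ × List ℕ) : Prop where
  len : B.1.length = B.2.length
  lt : ∀ x ∈ B.1 ++ B.2, x < A.length
  ch1 : B.1.IsChain (fun x y => adjB A x y = true)
  ch2 : B.2.IsChain (fun x y => adjB A x y = true)
  col : B.1.map (fun z => c.getD z 0) = B.2.map (fun z => c.getD z 0)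
  nd : (labs lam B).Nodup

theorem hdOK_iff (A : List (List Bool)) (x : ℕ) (P : List ℕ)
    (hP : P.IsChain (fun x y => adjB A x y = true)) :
    hdOK A x P = true ↔ (x :: P).IsChain (fun x y => adjB A x y = true) := by
  cases P with
  | nil => simp [hdOK]
  | cons y P =>
    rw [List.isChain_cons_cons]
    simp only [hdOK]
    constructor
    · intro h; exact ⟨h, hP⟩
    · intro h; exact h.1

theorem labs_cons_nodup (lam P Q : List ℕ) (x y : ℕ) :
    (labs lam (x :: P, y :: Q)).Nodup ↔
      (lam.getD x 0 ≠ lam.getD y 0 ∧ lam.getD x 0 ∉ labs lam (P, Q) ∧ lam.getD y 0 ∉ labs lam (P, Q)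
        ∧ (labs lam (P, Q)).Nodup) := by
  unfold labs
  have h1 : ((x :: P, y :: Q) : List ℕ × List ℕ).1 ++ ((x :: P, y :: Q) : List ℕ × List ℕ).2 =
      x :: (P ++ y :: Q) := rfl
  rw [h1]
  have h2 : List.Perm (x :: (P ++ y :: Q)) (x :: y :: (P ++ Q)) :=
    List.Perm.cons x List.perm_middle
  rw [(h2.map (fun z => lam.getD z 0)).nodup_iff, List.map_cons, List.map_cons, List.nodup_cons,
    List.nodup_cons, List.mem_cons, not_or]
  tauto

theorem mem_ext (A : List (List Bool)) (c lam : List ℕ) (S : List (List ℕ × List ℕ))
    (B : List ℕ × List ℕ) : B ∈ ext A c lam S ↔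
      ∃ R ∈ S, ∃ x < A.length, ∃ y < A.length, cand A c lam R x y = true ∧
        B = (x :: R.1, y :: R.2) := by
  unfold ext
  simp only [List.mem_flatMap, List.mem_range]
  constructor
  · rintro ⟨R, hR, x, hx, y, hy, h⟩
    refine ⟨R, hR, x, hx, y, hy, ?_⟩
    cases hc : cand A c lam R x y with
    | false => rw [hc] at h; simp at h
    | true => rw [hc] at h; simpa using h
  · rintro ⟨R, hR, x, hx, y, hy, hc, rfl⟩
    refine ⟨R, hR, x, hx, y, hy, ?_⟩
    rw [hc]
    simp

theorem cand_iff (A : List (List Bool)) (c lam : List ℕ) (R : List ℕ × List ℕ) (x y : ℕ)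
    (hx : x < A.length) (hy : y < A.length) (hR : PV A c lam R) :
    cand A c lam R x y = true ↔ PV A c lam (x :: R.1, y :: R.2) := by
  unfold cand
  simp only [Bool.and_eq_true, Bool.not_eq_true', decide_eq_true_eq, decide_eq_false_iff_not]
  rw [hdOK_iff A x R.1 hR.ch1, hdOK_iff A y R.2 hR.ch2]
  constructor
  · rintro ⟨h1, h2, h3, h4, h5, h6⟩
    refine ⟨?_, ?_, h1, h2, ?_, ?_⟩
    · simp only [List.length_cons, hR.len]
    · intro z hz
      simp only [List.cons_append, List.mem_cons, List.mem_append] at hz
      rcases hz with rfl | hz | rfl | hz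
      · exact hx
      · exact hR.lt z (by simp [hz])
      · exact hy
      · exact hR.lt z (by simp [hz])
    · simp only [List.map_cons]
      rw [h3, hR.col]
    · rw [labs_cons_nodup]
      exact ⟨h4, h5, h6, hR.nd⟩
  · intro h
    have h7 := (labs_cons_nodup lam R.1 R.2 x y).1 h.nd
    have h8 := h.col
    simp only [List.map_cons, List.cons.injEq] at h8
    exact ⟨h.ch1, h.ch2, h8.1, h7.1, h7.2.1, h7.2.2.1⟩

/-- Soundness of the dynamic program. -/
theorem level_sound (A : List (List Bool)) (c lam : List ℕ) (M u : ℕ) (i : ℕ)
    (S : List (List ℕ × List ℕ)) (hS : ∀ B ∈ S, PV A c lam B ∧ B.1.length ≤ i) :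
    ∀ B ∈ level A c lam M u S, PV A c lam B ∧ B.1.length ≤ i + 1 := by
  intro B hB
  have h1 := (dd_sublist (key M lam u) _).subset hB
  rcases List.mem_append.1 h1 with h | h
  · have := hS B h
    exact ⟨this.1, by omega⟩
  · rw [mem_ext] at h
    obtain ⟨R, hR, x, hx, y, hy, hc, rfl⟩ := h
    have h2 := hS R hR
    refine ⟨(cand_iff A c lam R x y hx hy h2.1).1 hc, ?_⟩
    simp only [List.length_cons]
    omega

theorem PV_nil (A : List (List Bool)) (c lam : List ℕ) : PV A c lam ([], []) :=
  ⟨rfl, by simp, List.IsChain.nil, List.IsChain.nil, rfl, by simp [labs]⟩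

theorem iter_sound (A : List (List Bool)) (c lam : List ℕ) (M u : ℕ) (i : ℕ) :
    ∀ B ∈ (level A c lam M u)^[i] [([], [])], PV A c lam B ∧ B.1.length ≤ i := by
  induction i with
  | zero =>
    intro B hB
    simp only [Function.iterate_zero, id_eq, List.mem_singleton] at hB
    subst hB
    exact ⟨PV_nil A c lam, by simp⟩
  | succ i ih =>
    rw [Function.iterate_succ_apply']
    exact level_sound A c lam M u i _ ih

theorem key_eq_iff (M : ℕ) (lam : List ℕ) (u : ℕ) (B B' : List ℕ × List ℕ) :
    key M lam u B = key M lam u B' ↔ B.1.length = B'.1.length ∧ B.1.head? = B'.1.head? ∧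
      B.2.head? = B'.2.head? ∧ B.1.getLast? = B'.1.getLast? ∧
      (∀ a < M, (a ∈ labs lam B ↔ a ∈ labs lam B')) ∧ (u ∈ B.1 ++ B.2 ↔ u ∈ B'.1 ++ B'.2) := by
  unfold key
  simp only [Prod.mk.injEq, List.head?_reverse, decide_eq_decide, List.map_inj_left, List.mem_range]

/-- Completeness of the dynamic program. -/
theorem iter_complete (A : List (List Bool)) (c lam : List ℕ) (M u : ℕ)
    (hlam : ∀ z < A.length, lam.getD z 0 < M) :
    ∀ (i : ℕ) (B : List ℕ × List ℕ), PV A c lam B → B.1.length = i →
      ∃ R ∈ (level A c lam M u)^[i] [([], [])], key M lam u R = key M lam u B := by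
  intro i
  induction i with
  | zero =>
    rintro ⟨P, Q⟩ hB hl
    have hP : P = [] := List.length_eq_zero_iff.1 hl
    have hQ : Q = [] := by
      have := hB.len
      simp only at this hl
      exact List.length_eq_zero_iff.1 (by omega)
    subst hP hQ
    exact ⟨([], []), by simp, rfl⟩
  | succ i ih =>
    rintro ⟨P, Q⟩ hB hl
    cases P with
    | nil => simp at hl
    | cons x P =>
      cases Q with
      | nil =>
        have := hB.len
        simp at this
      | cons y Q =>
        have hx : x < A.length := hB.lt x (by simp)
        have hy : y < A.length := hB.lt y (by simp)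
        have hnd := (labs_cons_nodup lam P Q x y).1 hB.nd
        have hcol := hB.col
        simp only [List.map_cons, List.cons.injEq] at hcol
        have hPQ : PV A c lam (P, Q) := by
          refine ⟨?_, ?_, ?_, ?_, hcol.2, hnd.2.2.2⟩
          · have := hB.len
            simpa using this
          · intro z hz
            apply hB.lt z
            simp only [List.mem_append] at hz
            rcases hz with hz | hz <;> simp [hz]
          · exact hB.ch1.of_cons
          · exact hB.ch2.of_cons
        obtain ⟨⟨P', Q'⟩, hR, hk⟩ := ih (P, Q) hPQ (by simpa using hl)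
        have hRs := (iter_sound A c lam M u i _ hR).1
        rw [key_eq_iff] at hk
        obtain ⟨k1, k2, k3, k4, k5, k6⟩ := hk
        simp only at k1 k2 k3 k4 k6
        have hlen1 : P.length = Q.length := hPQ.len
        have hlen2 : P'.length = Q'.length := hRs.len
        have hd1 : hdOK A x P' = hdOK A x P := by
          cases P with
          | nil =>
            have : P' = [] := List.length_eq_zero_iff.1 (by simpa using k1)
            rw [this]
          | cons a P =>
            cases P' with
            | nil => simp at k1
            | cons a' P' =>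
              simp only [List.head?_cons, Option.some.injEq] at k2
              rw [k2]
              rfl
        have hd2 : hdOK A y Q' = hdOK A y Q := by
          cases Q with
          | nil =>
            have : Q' = [] := List.length_eq_zero_iff.1 (by
              rw [← hlen2, k1, hlen1]
              rfl)
            rw [this]
          | cons a Q =>
            cases Q' with
            | nil => simp at k3
            | cons a' Q' =>
              simp only [List.head?_cons, Option.some.injEq] at k3
              rw [k3]
              rfl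
        have hc : cand A c lam (P', Q') x y = true := by
          unfold cand
          simp only [Bool.and_eq_true, Bool.not_eq_true', decide_eq_true_eq,
            decide_eq_false_iff_not]
          rw [hd1, hd2, hdOK_iff A x P hPQ.ch1, hdOK_iff A y Q hPQ.ch2]
          refine ⟨hB.ch1, hB.ch2, hcol.1, hnd.1, ?_, ?_⟩
          · rw [k5 _ (hlam x hx)]
            exact hnd.2.1
          · rw [k5 _ (hlam y hy)]
            exact hnd.2.2.1
        have hmem : (x :: P', y :: Q') ∈ ext A c lam ((level A c lam M u)^[i] [([], [])]) := by
          rw [mem_ext]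
          exact ⟨(P', Q'), hR, x, hx, y, hy, hc, rfl⟩
        have h1 := dd_key (key M lam u) ((level A c lam M u)^[i] [([], [])] ++
          ext A c lam ((level A c lam M u)^[i] [([], [])])) (x :: P', y :: Q')
          (List.mem_append_right _ hmem)
        rw [List.mem_map] at h1
        obtain ⟨R, hR1, hR2⟩ := h1
        refine ⟨R, ?_, ?_⟩
        · rw [Function.iterate_succ_apply']
          exact hR1
        · rw [hR2, key_eq_iff]
          have e1 : ∀ (X Y : List ℕ) (a : ℕ), a ∈ labs lam (x :: X, y :: Y) ↔
              a = lam.getD x 0 ∨ a = lam.getD y 0 ∨ a ∈ labs lam (X, Y) := by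
            intro X Y a
            unfold labs
            simp only [List.cons_append, List.map_cons, List.map_append, List.mem_cons,
              List.mem_append]
            tauto
          refine ⟨by simp [k1], rfl, rfl, ?_, ?_, ?_⟩
          · simp only
            cases P with
            | nil =>
              have : P' = [] := List.length_eq_zero_iff.1 (by simpa using k1)
              rw [this]
            | cons a P =>
              cases P' with
              | nil => simp at k1
              | cons a' P' =>
                rw [List.getLast?_cons_cons, List.getLast?_cons_cons]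
                exact k4
          · intro a ha
            rw [e1, e1, k5 a ha]
          · simp only [List.cons_append, List.mem_cons, List.mem_append] at k6 ⊢
            tauto

theorem iter_mono (A : List (List Bool)) (c lam : List ℕ) (M u : ℕ) (i j : ℕ) (hij : i ≤ j)
    (R : List ℕ × List ℕ) (hR : R ∈ (level A c lam M u)^[i] [([], [])]) :
    ∃ R' ∈ (level A c lam M u)^[j] [([], [])], key M lam u R' = key M lam u R := by
  induction j, hij using Nat.le_induction with
  | base => exact ⟨R, hR, rfl⟩
  | succ j _ ih =>
    obtain ⟨R', hR', hk⟩ := ih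
    have h1 := dd_key (key M lam u) ((level A c lam M u)^[j] [([], [])] ++
      ext A c lam ((level A c lam M u)^[j] [([], [])])) R' (List.mem_append_left _ hR')
    rw [List.mem_map] at h1
    obtain ⟨R'', h2, h3⟩ := h1
    refine ⟨R'', ?_, h3.trans hk⟩
    rw [Function.iterate_succ_apply']
    exact h2

theorem closeOK_iff (A : List (List Bool)) (B : List ℕ × List ℕ) (h1 : B.1 ≠ []) (h2 : B.2 ≠ [])
    (ch1 : B.1.IsChain (fun x y => adjB A x y = true))
    (ch2 : B.2.IsChain (fun x y => adjB A x y = true)) :
    closeOK A B = true ↔ (B.1 ++ B.2).IsChain (fun x y => adjB A x y = true) := by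
  rw [List.isChain_append]
  unfold closeOK
  rw [List.head?_reverse, List.getLast?_eq_getLast_of_ne_nil h1, List.head?_eq_some_head h2]
  simp only [Option.mem_def, Option.some.injEq]
  constructor
  · intro h
    exact ⟨ch1, ch2, by rintro x rfl y rfl; exact h⟩
  · rintro ⟨_, _, h⟩
    exact h _ rfl _ rfl

theorem findB_sound (A : List (List Bool)) (Λ : List (List ℕ)) (L M : ℕ) (c : List ℕ) (u : ℕ)
    (B : List ℕ × List ℕ) (h : findB A Λ L M c u = some B) :
    Valid (fun x y => adjB A x y = true) A.length L B ∧ u ∈ B.1 ++ B.2 ∧
      B.1.map (fun z => c.getD z 0) = B.2.map (fun z => c.getD z 0) := by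
  unfold findB at h
  have h1 := List.mem_of_mem_head? (Option.mem_def.2 h)
  rw [List.mem_filter, List.mem_flatMap] at h1
  obtain ⟨⟨lam, _, hB⟩, hg⟩ := h1
  have h2 := iter_sound A c lam M u L B hB
  unfold good at hg
  simp only [Bool.and_eq_true, Bool.or_eq_true, decide_eq_true_eq] at hg
  obtain ⟨hu, hcl⟩ := hg
  have hne : 1 ≤ B.1.length := by
    by_contra hcon
    have e1 : B.1 = [] := List.length_eq_zero_iff.1 (by omega)
    have e2 : B.2 = [] := by
      have := h2.1.len
      exact List.length_eq_zero_iff.1 (by omega)
    rw [e1, e2] at hu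
    simp at hu
  have hne1 : B.1 ≠ [] := List.ne_nil_of_length_pos (by omega)
  have hne2 : B.2 ≠ [] := List.ne_nil_of_length_pos (by have := h2.1.len; omega)
  refine ⟨⟨h2.1.len, hne, h2.2, List.Nodup.of_map _ h2.1.nd, h2.1.lt, h2.1.ch1, h2.1.ch2, ?_⟩, hu,
    h2.1.col⟩
  rcases hcl with h3 | h3
  · exact Or.inl h3
  · exact Or.inr ((closeOK_iff A B hne1 hne2 h2.1.ch1 h2.1.ch2).1 h3)

theorem findB_complete (A : List (List Bool)) (Λ : List (List ℕ)) (L M : ℕ) (c : List ℕ) (u : ℕ)
    (B : List ℕ × List ℕ) (hB : Valid (fun x y => adjB A x y = true) A.length L B)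
    (hu : u ∈ B.1 ++ B.2) (hcol : B.1.map (fun z => c.getD z 0) = B.2.map (fun z => c.getD z 0))
    (lam : List ℕ) (hlamΛ : lam ∈ Λ) (hlam : ∀ z < A.length, lam.getD z 0 < M)
    (hnd : (labs lam B).Nodup) : findB A Λ L M c u ≠ none := by
  have hPV : PV A c lam B := ⟨hB.len, hB.lt, hB.ch1, hB.ch2, hcol, hnd⟩
  obtain ⟨R₀, hR₀, hk₀⟩ := iter_complete A c lam M u hlam B.1.length B hPV rfl
  obtain ⟨R, hR, hk⟩ := iter_mono A c lam M u _ L hB.le R₀ hR₀
  have hk := hk.trans hk₀
  have hRs := (iter_sound A c lam M u L R hR).1
  rw [key_eq_iff] at hk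
  obtain ⟨k1, k2, k3, k4, k5, k6⟩ := hk
  have hgood : good A L u R = true := by
    unfold good
    simp only [Bool.and_eq_true, Bool.or_eq_true, decide_eq_true_eq]
    refine ⟨k6.2 hu, ?_⟩
    rcases hB.cl with h | h
    · left
      rw [k1, h]
    · right
      have hne1 : B.1 ≠ [] := List.ne_nil_of_length_pos hB.pos
      have hne2 : B.2 ≠ [] := List.ne_nil_of_length_pos (by rw [← hB.len]; exact hB.pos)
      have h1 := (closeOK_iff A B hne1 hne2 hB.ch1 hB.ch2).2 h
      unfold closeOK at h1 ⊢
      rw [List.head?_reverse] at h1 ⊢
      rw [k4, k3]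
      exact h1
  have hmem : R ∈ (Λ.flatMap fun lam => dp A c lam L M u).filter (good A L u) := by
    rw [List.mem_filter, List.mem_flatMap]
    exact ⟨⟨lam, hlamΛ, hR⟩, hgood⟩
  intro hnone
  unfold findB at hnone
  rw [List.head?_eq_none_iff] at hnone
  rw [hnone] at hmem
  simp at hmem

end Pool.Agent.J4H94.NRC
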