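import Pool.Agent.J4H94.NRC.Main

/-!
# Graphs and their adjacency matrices
-/

namespace Pool.Agent.J4H94.NRC

open Finset Pool.Agent.NPC

/-- The adjacency matrix of a graph on `{0, …, n-1}`, as a list of rows. -/
def matrix {n : ℕ} (G : SimpleGraph (Fin n)) [DecidableRel G.Adj] : List (List Bool) :=
  List.ofFn fun i => List.ofFn fun j => decide (G.Adj i j)

variable {n : ℕ} (G : SimpleGraph (Fin n)) [DecidableRel G.Adj]

theorem matrix_length : (matrix G).length = n := by simp [matrix]

theorem adjB_matrix (x y : ℕ) :
    adjB (matrix G) x y = true ↔ ∃ (hx : x < n) (hy : y < n), G.Adj ⟨x, hx⟩ ⟨y, hy⟩ := by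
  unfold adjB
  by_cases hx : x < n
  · have h1 : (matrix G).getD x [] = List.ofFn fun j => decide (G.Adj ⟨x, hx⟩ j) := by
      unfold matrix
      rw [List.getD_eq_getElem _ _ (by simpa using hx), List.getElem_ofFn]
    rw [h1]
    by_cases hy : y < n
    · rw [List.getD_eq_getElem _ _ (by simpa using hy), List.getElem_ofFn]
      simp [hx, hy]
    · rw [List.getD_eq_default _ _ (by simpa using hy)]
      simp [hy]
  · have h1 : (matrix G).getD x [] = [] := by
      rw [List.getD_eq_default]
      simpa [matrix] using hx
    rw [h1]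
    simp [hx]

theorem ofFn_filter_length : ∀ (m : ℕ) (f : Fin m → Bool),
    ((List.ofFn f).filter fun b => b).length = (univ.filter fun j => f j = true).card := by
  intro m
  induction m with
  | zero => intro f; simp
  | succ m ih =>
    intro f
    rw [List.ofFn_succ, List.filter_cons, Fin.card_filter_univ_succ]
    by_cases h : f 0 = true
    · rw [if_pos h, if_pos h, List.length_cons, ih]
    · rw [if_neg h, if_neg h, ih]

theorem row_degree (i : Fin n) :
    ((List.ofFn fun j => decide (G.Adj i j)).filter fun b => b).length = G.degree i := by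
  rw [ofFn_filter_length, ← SimpleGraph.card_neighborFinset_eq_degree]
  congr 1
  ext j
  simp

theorem le_foldr_max (l : List ℕ) (x : ℕ) (hx : x ∈ l) : x ≤ l.foldr Max.max 0 := by
  induction l with
  | nil => simp at hx
  | cons y l ih =>
    rw [List.foldr_cons]
    rcases List.mem_cons.1 hx with rfl | hx
    · exact le_max_left _ _
    · exact (ih hx).trans (le_max_right _ _)

theorem foldr_max_le (l : List ℕ) (b : ℕ) (h : ∀ x ∈ l, x ≤ b) : l.foldr Max.max 0 ≤ b := by
  induction l with
  | nil => simp
  | cons y l ih =>
    rw [List.foldr_cons]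
    exact max_le (h y (by simp)) (ih fun x hx => h x (by simp [hx]))

theorem degree_le_maxdeg (i : Fin n) : G.degree i ≤ maxdeg (matrix G) := by
  unfold maxdeg
  apply le_foldr_max
  rw [List.mem_map]
  refine ⟨List.ofFn fun j => decide (G.Adj i j), ?_, row_degree G i⟩
  unfold matrix
  rw [List.mem_ofFn]
  exact ⟨i, rfl⟩

theorem maxdeg_le (b : ℕ) (h : ∀ i, G.degree i ≤ b) : maxdeg (matrix G) ≤ b := by
  unfold maxdeg
  apply foldr_max_le
  intro x hx
  rw [List.mem_map] at hx
  obtain ⟨row, hrow, rfl⟩ := hx
  unfold matrix at hrow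
  rw [List.mem_ofFn] at hrow
  obtain ⟨i, rfl⟩ := hrow
  rw [row_degree]
  exact h i

theorem maxdeg_le_maxDegree : maxdeg (matrix G) ≤ G.maxDegree :=
  maxdeg_le G _ fun i => G.degree_le_maxDegree i

theorem maxdeg_le_card : maxdeg (matrix G) ≤ n :=
  maxdeg_le G _ fun i => by
    have := G.degree_lt_card_verts i
    rw [Fintype.card_fin] at this
    exact this.le

theorem card_adjB_le (u : ℕ) :
    ((range n).filter (fun v => adjB (matrix G) u v = true)).card ≤ maxdeg (matrix G) := by
  by_cases hu : u < n
  · refine le_trans ?_ (degree_le_maxdeg G ⟨u, hu⟩)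
    rw [← SimpleGraph.card_neighborFinset_eq_degree]
    rw [← Finset.card_map Fin.valEmbedding]
    apply card_le_card
    intro v hv
    rw [mem_filter, adjB_matrix] at hv
    obtain ⟨_, hx, hy, h⟩ := hv
    rw [mem_map]
    exact ⟨⟨v, hy⟩, by rw [SimpleGraph.mem_neighborFinset]; exact h, rfl⟩
  · have : (range n).filter (fun v => adjB (matrix G) u v = true) = ∅ := by
      rw [filter_eq_empty_iff]
      intro v _ h
      rw [adjB_matrix] at h
      exact hu h.1
    rw [this]
    simp

theorem adjB_symm (x y : ℕ) (h : adjB (matrix G) x y = true) : adjB (matrix G) y x = true := by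
  rw [adjB_matrix] at h ⊢
  obtain ⟨hx, hy, h⟩ := h
  exact ⟨hy, hx, h.symm⟩

/-- Without edges there are no bad events. -/
theorem fine_of_maxdeg_eq_zero (h0 : maxdeg (matrix G) = 0) (out : List ℕ) :
    Fine (matrix G) out := by
  have hno : ∀ x y, adjB (matrix G) x y ≠ true := by
    intro x y h
    have h1 := card_adjB_le G x
    rw [h0, Nat.le_zero, card_eq_zero] at h1
    have hy : y < n := ((adjB_matrix G x y).1 h).2.1
    have : y ∈ (range n).filter (fun v => adjB (matrix G) x v = true) := by
      rw [mem_filter, mem_range]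
      exact ⟨hy, h⟩
    rw [h1] at this
    simp at this
  intro B hB _
  have hL : 2 ≤ Lf (matrix G).length := by unfold Lf; omega
  have hshort : ∀ l : List ℕ, l.IsChain (fun x y => adjB (matrix G) x y = true) →
      l.length ≤ 1 := by
    intro l hl
    cases l with
    | nil => simp
    | cons a l =>
      cases l with
      | nil => simp
      | cons b l =>
        rw [List.isChain_cons_cons] at hl
        exact absurd hl.1 (hno a b)
  rcases hB.cl with h | h
  · have := hshort _ hB.ch1
    omega
  · have h1 := hshort _ h
    rw [List.length_append, ← hB.len] at h1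
    have := hB.pos
    omega

end Pool.Agent.J4H94.NRC
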