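import Pool.Agent.J4H94.NRC.Corr

/-!
# The algorithm fails with small probability
-/

namespace Pool.Agent.J4H94.NRC

open Finset Pool.Agent.NPC

/-- the number of rows of random words -/
def pR (n : ℕ) : ℕ := pN n + (pT n + 1)

/-- the random words of the algorithm, as a string of bits -/
def allEquiv (n : ℕ) : (Fin (pN n) → Fin n → Fin (pD n) → Bool) ×
    (Fin n → Fin (pD n) → Bool) × (Fin (pT n) → Fin n → Fin (pD n) → Bool) ≃
    (Fin (pR n * n * pD n) → Bool) :=
  ((Equiv.refl _).prodCongr (Fin.consEquiv (fun _ : Fin (pT n + 1) =>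
    (Fin n → Fin (pD n) → Bool)))).trans
    ((Fin.appendEquiv (pN n) (pT n + 1)).trans (arrEquiv (pR n) n (pD n)))

theorem allEquiv_apply (n : ℕ) (Λ : Fin (pN n) → Fin n → Fin (pD n) → Bool)
    (c : Fin n → Fin (pD n) → Bool) (ω : Fin (pT n) → Fin n → Fin (pD n) → Bool) :
    allEquiv n (Λ, c, ω) = arrEquiv (pR n) n (pD n)
      (Fin.append Λ (Fin.cons (α := fun _ => Fin n → Fin (pD n) → Bool) c ω)) := rfl

theorem jf_le (A : List (List Bool)) (hΔ : maxdeg A ≤ A.length) : jf A ≤ pD A.length := by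
  unfold jf pD
  have h1 := Poly.size_le_self (36 * (maxdeg A * maxdeg A))
  have h2 := Nat.mul_le_mul hΔ hΔ
  omega

theorem af_le (n : ℕ) : af n ≤ pD n := by
  unfold af pD
  have h1 := Poly.size_le_self (4 * Lf n)
  have h2 := Lf_le n
  omega

/-- The algorithm in terms of the random words. -/
theorem alg_eq {n : ℕ} (A : List (List Bool)) (hA : A.length = n) (hΔ : maxdeg A ≤ n)
    (Λ : Fin (pN n) → Fin n → Fin (pD n) → Bool)
    (c : Fin n → Fin (pD n) → Bool) (ω : Fin (pT n) → Fin n → Fin (pD n) → Bool) :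
    alg A (List.ofFn (allEquiv n (Λ, c, ω))) =
      conc (rdW (jf A)) ((List.ofFn ω).foldl (step (findW A
        (List.ofFn fun i => conc (rdW (af n)) (Λ i)) (rdW (jf A)))) (c, List.range n)).1 := by
  have hj : jf A ≤ pD n := by
    have := jf_le A (by rw [hA]; exact hΔ)
    rwa [hA] at this
  have ha := af_le n
  set ρ := Fin.append Λ (Fin.cons (α := fun _ => Fin n → Fin (pD n) → Bool) c ω) with hρ
  unfold alg
  rw [hA, allEquiv_apply, ← hρ]
  have e1 : ((List.range (pN n)).map fun i =>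
      row (List.ofFn (arrEquiv (pR n) n (pD n) ρ)) n (pD n) i (af n)) =
      List.ofFn fun i => conc (rdW (af n)) (Λ i) := by
    apply List.ext_getElem
    · simp
    · intro i h1 h2
      simp only [List.getElem_map, List.getElem_range, List.getElem_ofFn]
      have hi : i < pN n := by simpa using h1
      have := row_eq ρ (Fin.castAdd (pT n + 1) ⟨i, hi⟩) (af n) ha
      rw [hρ, Fin.append_left, ← hρ] at this
      exact this
  have e2 : row (List.ofFn (arrEquiv (pR n) n (pD n) ρ)) n (pD n) (pN n) (jf A) =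
      conc (rdW (jf A)) c := by
    have := row_eq ρ (Fin.natAdd (pN n) 0) (jf A) hj
    rw [hρ, Fin.append_right, Fin.cons_zero, ← hρ] at this
    exact this
  have e3 : ((List.range (pT n)).map fun s =>
      row (List.ofFn (arrEquiv (pR n) n (pD n) ρ)) n (pD n) (pN n + (1 + s)) (jf A)) =
      (List.ofFn ω).map (conc (rdW (jf A))) := by
    apply List.ext_getElem
    · simp
    · intro i h1 h2
      simp only [List.getElem_map, List.getElem_range, List.getElem_ofFn]
      have hi : i < pT n := by simpa using h1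
      have := row_eq ρ (Fin.natAdd (pN n) (Fin.succ ⟨i, hi⟩)) (jf A) hj
      rw [hρ, Fin.append_right, Fin.cons_succ, ← hρ] at this
      rw [← this]
      congr 1
      simp only [Fin.val_natAdd, Fin.val_succ]
      ring
  rw [e1, e2, e3]
  unfold runA
  rw [hA]
  have := foldl_conc A hA (List.ofFn fun i => conc (rdW (af n)) (Λ i)) (rdW (jf A)) (List.ofFn ω)
    (c, List.range n)
  simp only at this
  rw [this]

/-- no bad event is violated by the colouring given by the list -/
def Fine (A : List (List Bool)) (out : List ℕ) : Prop :=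
  ∀ B, Valid (fun x y => adjB A x y = true) A.length (Lf A.length) B →
    B.1.map (fun z => out.getD z 0) ≠ B.2.map (fun z => out.getD z 0)

theorem pow_Lf (n : ℕ) : 64 * n ≤ 8 ^ Lf n := by
  unfold Lf
  have h1 := Nat.lt_size_self n
  have h2 : 2 ^ n.size ≤ 8 ^ n.size := Nat.pow_le_pow_left (by norm_num) _
  rw [pow_add]
  omega

theorem pN_ge (n : ℕ) : 2 * n * 2 ^ (2 * Lf n) ≤ pN n := by
  rcases Nat.eq_zero_or_pos n with rfl | hn
  · simp
  · unfold pN Lf
    have h1 : 0 < n.size := Nat.size_pos.2 hn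
    have h2 : 2 ^ (n.size - 1) ≤ n := Nat.lt_size.1 (by omega)
    obtain ⟨m, hm⟩ : ∃ m, n.size = m + 1 := ⟨n.size - 1, by omega⟩
    rw [hm] at h2 ⊢
    simp only [Nat.add_sub_cancel] at h2
    have h3 : 2 ^ (2 * (m + 1 + 2)) = 64 * (2 ^ m * 2 ^ m) := by ring
    rw [h3]
    calc 2 * n * (64 * (2 ^ m * 2 ^ m)) ≤ 2 * n * (64 * (n * n)) :=
          Nat.mul_le_mul_left _ (Nat.mul_le_mul_left _ (Nat.mul_le_mul h2 h2))
      _ = 128 * (n * (n * n)) := by ring

/-- **The probability of failure.** -/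
theorem count_bad {n : ℕ} (hn : 1 ≤ n) (A : List (List Bool)) (hA : A.length = n)
    (hsymm : ∀ x y, adjB A x y = true → adjB A y x = true)
    (hdeg : ∀ u, ((range n).filter (fun v => adjB A u v = true)).card ≤ maxdeg A)
    (hΔ1 : 1 ≤ maxdeg A) (hΔn : maxdeg A ≤ n) :
    (Nat.card {b : Fin (pR n * n * pD n) → Bool // ¬ Fine A (alg A (List.ofFn b))} : ℝ) ≤
      2 ^ (pR n * n * pD n) * ((1 / 2) ^ n + (3 / 16) ^ n) := by
  classical
  -- the random words
  set W := Fin (pD n) → Bool with hW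
  set κ : W → ℕ := rdW (jf A) with hκdef
  set lb : W → ℕ := rdW (af n) with hlbdef
  set k := 2 ^ jf A with hk
  have hj : jf A ≤ pD n := by
    have := jf_le A (by rw [hA]; exact hΔn)
    rwa [hA] at this
  have hκ : ∀ a, (univ.filter fun w : W => κ w = a).card * k ≤ Fintype.card W :=
    fun a => card_rdW hj a
  have hlb : ∀ a, (univ.filter fun w : W => lb w = a).card * Mf n ≤ Fintype.card W :=
    fun a => card_rdW (af_le n) a
  have hlblt : ∀ w, lb w < Mf n := fun w => rdW_lt _ w
  set X : ℝ := (Fintype.card (Fin n → W) : ℝ) with hX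
  have hX0 : 0 ≤ X := Nat.cast_nonneg _
  have hXpow : X ^ (pN n + (pT n + 1)) = 2 ^ (pR n * n * pD n) := by
    have e1 : Fintype.card (Fin n → W) = 2 ^ (pD n * n) := by
      change Fintype.card (Fin n → Fin (pD n) → Bool) = _
      simp only [Fintype.card_pi, Fintype.card_bool, prod_const, card_univ, Fintype.card_fin]
      rw [← pow_mul]
    rw [hX, e1, pR]
    push_cast
    rw [← pow_mul]
    congr 1
    ring
  -- the imperfect labellings
  obtain ⟨Dset, hD1, hD2⟩ := card_imperfect (n := n) lb (Mf n) hlb (by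
    have := four_Lf_lt n
    omega) (2 * Lf n) (pN n) (by
    have := four_Lf_lt n
    omega) (pN_ge n)
  -- the runs with many resamplings
  let find : (Fin (pN n) → Fin n → W) → (Fin n → W) → ℕ → Option (List ℕ × List ℕ) :=
    fun Λ => findW A (List.ofFn fun i => conc lb (Λ i)) κ
  have hruns : ∀ Λ, ∑ c : Fin n → W, S (pT n) (fun l =>
      if 3 * n ≤ nres (find Λ) l c (List.range n) then (1 : ℝ) else 0) ≤
      X ^ (pT n + 1) * (3 / 16) ^ n := by
    intro Λ
    have h1 := main_bound (n := n) (find Λ) κ k (by positivity) hκ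
      (evs (fun x y => adjB A x y = true) n (Lf n)) (by
        intro c u B h
        have h2 := findW_sound A hA _ κ c u B h
        exact ⟨mem_evs _ n hsymm (Lf n) u B h2.1 h2.2.1, h2.2.2⟩)
      (fun u B hB => evs_spec _ n (Lf n) u B hB) (by
        intro u
        refine sum_evs_le _ n (Lf n) (by unfold Lf; omega) (pow_Lf n) (maxdeg A) k hΔ1 ?_ hdeg u
        have := Nat.lt_size_self (36 * (maxdeg A * maxdeg A))
        rw [hk, jf, pow_two]
        omega) (pT n) (List.range n) (3 * n)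
    refine h1.trans (le_of_eq ?_)
    rw [List.length_range, ← hX, mul_assoc, pow_mul, ← mul_pow]
    norm_num
  -- the bad random words
  have hbad : ∀ Λ c ω, ¬ Fine A (alg A (List.ofFn (allEquiv n (Λ, c, ω)))) →
      Λ ∈ Dset ∨ 3 * n ≤ nres (find Λ) (List.ofFn ω) c (List.range n) := by
    intro Λ c ω hnf
    by_contra hcon
    push Not at hcon
    apply hnf
    rw [alg_eq A hA hΔn]
    have h1 := run_good A hA lb hlblt Λ (hD1 Λ hcon.1) κ c (List.ofFn ω) (by simp) hcon.2
    intro B hB heq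
    rw [hA] at hB
    exact h1 B hB ((viol_iff_conc κ _ B).2 heq)
  have hcard : (Nat.card {b : Fin (pR n * n * pD n) → Bool // ¬ Fine A (alg A (List.ofFn b))} : ℝ) =
      ∑ Λ : Fin (pN n) → Fin n → W, ∑ c : Fin n → W, ∑ ω : Fin (pT n) → Fin n → W,
        (if ¬ Fine A (alg A (List.ofFn (allEquiv n (Λ, c, ω)))) then (1 : ℝ) else 0) := by
    rw [Nat.card_eq_fintype_card, Fintype.card_subtype, card_filter, Nat.cast_sum,
      ← Equiv.sum_comp (allEquiv n), Fintype.sum_prod_type]
    refine sum_congr rfl fun Λ _ => ?_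
    rw [Fintype.sum_prod_type]
    refine sum_congr rfl fun c _ => sum_congr rfl fun ω _ => ?_
    split_ifs <;> simp
  rw [hcard]
  have hle : ∀ (Λ : Fin (pN n) → Fin n → W) (c : Fin n → W) (ω : Fin (pT n) → Fin n → W),
      (if ¬ Fine A (alg A (List.ofFn (allEquiv n (Λ, c, ω)))) then (1 : ℝ) else 0) ≤
      (if Λ ∈ Dset then (1 : ℝ) else 0) +
        (if 3 * n ≤ nres (find Λ) (List.ofFn ω) c (List.range n) then (1 : ℝ) else 0) := by
    intro Λ c ω
    by_cases h : Fine A (alg A (List.ofFn (allEquiv n (Λ, c, ω))))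
    · rw [if_neg (by simpa using h)]
      positivity
    · rw [if_pos h]
      rcases hbad Λ c ω h with h1 | h1
      · rw [if_pos h1]
        have : (0 : ℝ) ≤ (if 3 * n ≤ nres (find Λ) (List.ofFn ω) c (List.range n) then (1 : ℝ)
          else 0) := by positivity
        linarith
      · rw [if_pos h1]
        have : (0 : ℝ) ≤ (if Λ ∈ Dset then (1 : ℝ) else 0) := by positivity
        linarith
  have hsum1 : ∑ Λ : Fin (pN n) → Fin n → W, ∑ c : Fin n → W, ∑ ω : Fin (pT n) → Fin n → W,
      (if Λ ∈ Dset then (1 : ℝ) else 0) = (Dset.card : ℝ) * X ^ (pT n + 1) := by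
    have : ∀ Λ : Fin (pN n) → Fin n → W, ∑ c : Fin n → W, ∑ ω : Fin (pT n) → Fin n → W,
        (if Λ ∈ Dset then (1 : ℝ) else 0) = (if Λ ∈ Dset then (1 : ℝ) else 0) * X ^ (pT n + 1) := by
      intro Λ
      rw [sum_const, sum_const, card_univ, card_univ, Fintype.card_fun (α := Fin (pT n)),
        Fintype.card_fin, nsmul_eq_mul, nsmul_eq_mul, Nat.cast_pow, ← hX]
      ring
    rw [sum_congr rfl fun Λ _ => this Λ, ← sum_mul]
    congr 1
    rw [sum_ite_mem, univ_inter, sum_const, nsmul_eq_mul, mul_one]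
  have hsum2 : ∑ Λ : Fin (pN n) → Fin n → W, ∑ c : Fin n → W, ∑ ω : Fin (pT n) → Fin n → W,
      (if 3 * n ≤ nres (find Λ) (List.ofFn ω) c (List.range n) then (1 : ℝ) else 0) ≤
      X ^ pN n * (X ^ (pT n + 1) * (3 / 16) ^ n) := by
    refine (sum_le_sum fun Λ _ => hruns Λ).trans ?_
    rw [sum_const, card_univ, Fintype.card_fun (α := Fin (pN n)), Fintype.card_fin, nsmul_eq_mul,
      Nat.cast_pow, ← hX]
  calc _ ≤ ∑ Λ : Fin (pN n) → Fin n → W, ∑ c : Fin n → W, ∑ ω : Fin (pT n) → Fin n → W,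
        ((if Λ ∈ Dset then (1 : ℝ) else 0) +
        (if 3 * n ≤ nres (find Λ) (List.ofFn ω) c (List.range n) then (1 : ℝ) else 0)) :=
        sum_le_sum fun Λ _ => sum_le_sum fun c _ => sum_le_sum fun ω _ => hle Λ c ω
    _ = (∑ Λ : Fin (pN n) → Fin n → W, ∑ c : Fin n → W, ∑ ω : Fin (pT n) → Fin n → W,
        (if Λ ∈ Dset then (1 : ℝ) else 0)) +
        ∑ Λ : Fin (pN n) → Fin n → W, ∑ c : Fin n → W, ∑ ω : Fin (pT n) → Fin n → W,
        (if 3 * n ≤ nres (find Λ) (List.ofFn ω) c (List.range n) then (1 : ℝ) else 0) := by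
        simp only [sum_add_distrib]
    _ ≤ X ^ pN n * (1 / 2) ^ n * X ^ (pT n + 1) + X ^ pN n * (X ^ (pT n + 1) * (3 / 16) ^ n) := by
        rw [hsum1]
        exact add_le_add (mul_le_mul_of_nonneg_right hD2 (by positivity)) hsum2
    _ = X ^ (pN n + (pT n + 1)) * ((1 / 2) ^ n + (3 / 16) ^ n) := by
        rw [pow_add]
        ring
    _ = _ := by rw [hXpow]

end Pool.Agent.J4H94.NRC
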