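import Pool.Agent.NPC.Dec
import Pool.Agent.J4H94.NRC.Find

/-!
# The search for violated bad events takes polynomial time
-/

namespace Pool.Agent.J4H94.NRC

open Pool.Agent.NPC
open Pool.Agent.NPC.Poly (pair fst snd const)

/-- the maximum length of the paths of a bad event -/
def Lf (n : ℕ) : ℕ := n.size + 2

/-- the number of bits of a label -/
def af (n : ℕ) : ℕ := (4 * Lf n).size

/-- the number of labels -/
def Mf (n : ℕ) : ℕ := 2 ^ af n

/-- look for a violated bad event containing `u` -/
def findA (A : List (List Bool)) (Λ : List (List ℕ)) (c : List ℕ) (u : ℕ) :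
    Option (List ℕ × List ℕ) :=
  findB A Λ (Lf A.length) (Mf A.length) c u

section Poly

variable {α β : Type} [TEnc α] [TEnc β]

theorem pid : Poly (fun a : α => a) := Poly.id

theorem uSize {n : α → ℕ} (hn : Poly n) : UPoly (fun a => (n a).size) := by
  have h : UPoly (fun a => (n a).bits.length) := UPoly.length hn.natBits
  have e : (fun a => (n a).bits.length) = fun a => (n a).size := by
    funext a
    rw [Nat.size_eq_bits_len]
  rwa [e] at h

theorem uLf {n : α → ℕ} (hn : Poly n) : UPoly (fun a => Lf (n a)) :=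
  UPoly.add (uSize hn) (UPoly.const 2)

theorem uaf {n : α → ℕ} (hn : Poly n) : UPoly (fun a => af (n a)) :=
  uSize (Poly.mul (const 4) (uLf hn).toPoly)

theorem two_pow_size_le (n : ℕ) : 2 ^ n.size ≤ 2 * n + 1 := by
  rcases Nat.eq_zero_or_pos n with rfl | hn
  · simp
  · have h1 : 0 < n.size := Nat.size_pos.2 hn
    have h2 : 2 ^ (n.size - 1) ≤ n := Nat.lt_size.1 (by omega)
    obtain ⟨m, hm⟩ : ∃ m, n.size = m + 1 := ⟨n.size - 1, by omega⟩
    rw [hm] at h2 ⊢
    rw [pow_succ]
    simp only [Nat.add_sub_cancel] at h2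
    omega

theorem valB_two_pow (k : ℕ) : valB (List.replicate k false ++ [true]) = 2 ^ k := by
  rw [valB_replicate_false]
  simp

theorem uTwoPow {n : α → ℕ} (hn : UPoly n) : Poly (fun a => 2 ^ n a) := by
  have h1 : Poly (fun a => (List.replicate (n a) ()).map (fun _ => false) ++ [true]) :=
    Poly.append (NPC.Poly.map (F := fun _ _ => false) hn (const false)) (const [true])
  refine (Poly.valBits h1).congr fun a => ?_
  rw [List.map_replicate, valB_two_pow]

theorem uMf {n : α → ℕ} (hn : Poly n) : UPoly (fun a => Mf (n a)) := by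
  refine UPoly.of_le (uTwoPow (uaf hn)) (UPoly.add (UPoly.mul (UPoly.const 8) (uLf hn))
    (UPoly.const 1)) fun a => ?_
  have := two_pow_size_le (4 * Lf (n a))
  show 2 ^ (4 * Lf (n a)).size ≤ _
  omega

theorem pAdj {A : α → List (List Bool)} {i j : α → ℕ} (hA : Poly A) (hi : Poly i) (hj : Poly j) :
    Poly (fun a => adjB (A a) (i a) (j a)) :=
  Poly.getD (Poly.getD hA hi (const [])) hj (const false)

theorem pHdOK {A : α → List (List Bool)} {x : α → ℕ} {P : α → List ℕ} (hA : Poly A) (hx : Poly x)
    (hP : Poly P) : Poly (fun a => hdOK (A a) (x a) (P a)) := by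
  refine (Poly.listCases (l := P) (g := fun _ => true) (h := fun a y _ => adjB (A a) (x a) y) hP
    (const true) (pAdj (hA.comp (fst pid)) (hx.comp (fst pid)) (fst (snd pid)))).congr fun a => ?_
  unfold hdOK
  cases P a <;> rfl

theorem pLabs {lam : α → List ℕ} {B : α → List ℕ × List ℕ} (hlam : Poly lam) (hB : Poly B) :
    Poly (fun a => labs (lam a) (B a)) :=
  NPC.Poly.map (F := fun a z => (lam a).getD z 0) (Poly.append (fst hB) (snd hB))
    (Poly.getD (hlam.comp (fst pid)) (snd pid) (const 0))

theorem pCand {A : α → List (List Bool)} {c lam : α → List ℕ} {B : α → List ℕ × List ℕ}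
    {x y : α → ℕ} (hA : Poly A) (hc : Poly c) (hlam : Poly lam) (hB : Poly B) (hx : Poly x)
    (hy : Poly y) : Poly (fun a => cand (A a) (c a) (lam a) (B a) (x a) (y a)) := by
  have h1 := pLabs hlam hB
  have h2 : Poly (fun a => (lam a).getD (x a) 0) := Poly.getD hlam hx (const 0)
  have h3 : Poly (fun a => (lam a).getD (y a) 0) := Poly.getD hlam hy (const 0)
  exact Poly.and (pHdOK hA hx (fst hB)) (Poly.and (pHdOK hA hy (snd hB))
    (Poly.and (Poly.decide_eq (Poly.getD hc hx (const 0)) (Poly.getD hc hy (const 0)))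
    (Poly.and (Poly.not (Poly.decide_eq h2 h3)) (Poly.and (Poly.not (Poly.decide_mem h2 h1))
      (Poly.not (Poly.decide_mem h3 h1))))))

theorem pExt {A : α → List (List Bool)} {c lam : α → List ℕ} {S : α → List (List ℕ × List ℕ)}
    (hA : Poly A) (hc : Poly c) (hlam : Poly lam) (hS : Poly S) :
    Poly (fun a => ext (A a) (c a) (lam a) (S a)) := by
  have h0 : Poly (fun p : α × (List ℕ × List ℕ) => List.range (A p.1).length) :=
    Poly.range_length (hA.comp (fst pid))
  have h1 : Poly (fun p : (α × (List ℕ × List ℕ)) × ℕ => List.range (A p.1.1).length) :=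
    Poly.range_length (hA.comp (fst (fst pid)))
  have h2 : Poly (fun p : ((α × (List ℕ × List ℕ)) × ℕ) × ℕ =>
      bif cand (A p.1.1.1) (c p.1.1.1) (lam p.1.1.1) p.1.1.2 p.1.2 p.2
      then [(p.1.2 :: p.1.1.2.1, p.2 :: p.1.1.2.2)] else []) :=
    Poly.cond (pCand (hA.comp (fst (fst (fst pid)))) (hc.comp (fst (fst (fst pid))))
      (hlam.comp (fst (fst (fst pid)))) (snd (fst (fst pid))) (snd (fst pid)) (snd pid))
      (Poly.cons (pair (Poly.cons (snd (fst pid)) (fst (snd (fst (fst pid)))))
        (Poly.cons (snd pid) (snd (snd (fst (fst pid)))))) (const [])) (const [])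
  have h3 : Poly (fun p : (α × (List ℕ × List ℕ)) × ℕ =>
      (List.range (A p.1.1).length).flatMap fun y =>
      bif cand (A p.1.1) (c p.1.1) (lam p.1.1) p.1.2 p.2 y
      then [(p.2 :: p.1.2.1, y :: p.1.2.2)] else []) :=
    Poly.flatMap (F := fun (p : (α × (List ℕ × List ℕ)) × ℕ) y =>
      bif cand (A p.1.1) (c p.1.1) (lam p.1.1) p.1.2 p.2 y
      then [(p.2 :: p.1.2.1, y :: p.1.2.2)] else []) h1 h2
  have h4 : Poly (fun p : α × (List ℕ × List ℕ) =>
      (List.range (A p.1).length).flatMap fun x => (List.range (A p.1).length).flatMap fun y =>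
      bif cand (A p.1) (c p.1) (lam p.1) p.2 x y
      then [(x :: p.2.1, y :: p.2.2)] else []) :=
    Poly.flatMap (F := fun (p : α × (List ℕ × List ℕ)) x =>
      (List.range (A p.1).length).flatMap fun y =>
      bif cand (A p.1) (c p.1) (lam p.1) p.2 x y
      then [(x :: p.2.1, y :: p.2.2)] else []) h0 h3
  exact Poly.flatMap (F := fun a B =>
      (List.range (A a).length).flatMap fun x => (List.range (A a).length).flatMap fun y =>
      bif cand (A a) (c a) (lam a) B x y
      then [(x :: B.1, y :: B.2)] else []) hS h4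

theorem pKey {M : α → ℕ} {lam : α → List ℕ} {u : α → ℕ} {B : α → List ℕ × List ℕ}
    (hM : UPoly M) (hlam : Poly lam) (hu : Poly u) (hB : Poly B) :
    Poly (fun a => key (M a) (lam a) (u a) (B a)) := by
  refine pair (Poly.length (fst hB)) (pair (Poly.head? (fst hB)) (pair (Poly.head? (snd hB))
    (pair (Poly.head? (Poly.reverse (fst hB))) (pair ?_
      (Poly.decide_mem hu (Poly.append (fst hB) (snd hB)))))))
  exact NPC.Poly.map (F := fun a x => decide (x ∈ labs (lam a) (B a))) hM.range
    (Poly.decide_mem (snd pid) (pLabs (hlam.comp (fst pid)) (hB.comp (fst pid))))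

theorem sz_sublist {l l' : List β} (h : List.Sublist l l') : sz l ≤ sz l' := by
  induction h with
  | slnil => exact le_rfl
  | cons a _ ih => rw [sz_list_cons]; omega
  | cons_cons a _ ih => rw [sz_list_cons, sz_list_cons]; omega

theorem pDd {κ : Type} [DecidableEq κ] [TEnc κ] {key : α → β → κ} {l : α → List β}
    (hkey : Poly (fun p : α × β => key p.1 p.2)) (hl : Poly l) :
    Poly (fun a => dd (key a) (l a)) := by
  obtain ⟨r, hr⟩ := hl.sz_le
  have hmap : Poly (fun p : α × β × List β => p.2.2.map (key p.1)) :=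
    NPC.Poly.map (F := fun (p : α × β × List β) b => key p.1 b) (snd (snd pid))
      (hkey.comp (pair (fst (fst pid)) (snd pid)))
  refine Poly.foldr (l := l) (s := fun _ => ([] : List β))
    (F := fun a x r => if key a x ∈ r.map (key a) then r else x :: r) hl (const [])
    (Poly.ite (p := fun p : α × β × List β => key p.1 p.2.1 ∈ p.2.2.map (key p.1))
      (Poly.decide_mem (hkey.comp (pair (fst pid) (fst (snd pid)))) hmap)
      (snd (snd pid)) (Poly.cons (fst (snd pid)) (snd (snd pid)))) r ?_
  intro a k _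
  exact (sz_sublist (dd_sublist (key a) _)).trans ((Poly.sz_drop_le _ _).trans (hr a))

theorem pLevel {A : α → List (List Bool)} {c lam : α → List ℕ} {M u : α → ℕ}
    {S : α → List (List ℕ × List ℕ)} (hA : Poly A) (hc : Poly c) (hlam : Poly lam) (hM : UPoly M)
    (hu : Poly u) (hS : Poly S) : Poly (fun a => level (A a) (c a) (lam a) (M a) (u a) (S a)) :=
  pDd (key := fun a => key (M a) (lam a) (u a))
    (pKey (UPoly.comp hM (fst pid)) (hlam.comp (fst pid)) (hu.comp (fst pid)) (snd pid))
    (Poly.append hS (pExt hA hc hlam hS))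

end Poly

/-! ### The size of the tables -/

theorem iter_nodup (A : List (List Bool)) (c lam : List ℕ) (M u i : ℕ) :
    (((level A c lam M u)^[i] [([], [])]).map (key M lam u)).Nodup := by
  cases i with
  | zero => simp
  | succ i =>
    rw [Function.iterate_succ_apply']
    exact dd_nodup _ _

/-- a finite set of keys -/
def keys (n L M : ℕ) : Finset Key :=
  Finset.range (L + 1) ×ˢ (insert none ((Finset.range n).image some)) ×ˢ
    (insert none ((Finset.range n).image some)) ×ˢ (insert none ((Finset.range n).image some)) ×ˢ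
    ((Finset.univ : Finset (Fin M → Bool)).image List.ofFn) ×ˢ Finset.univ

theorem card_keys (n L M : ℕ) :
    (keys n L M).card ≤ (L + 1) * ((n + 1) * ((n + 1) * ((n + 1) * (2 ^ M * 2)))) := by
  unfold keys
  have h1 : (insert none ((Finset.range n).image some) : Finset (Option ℕ)).card ≤ n + 1 := by
    refine (Finset.card_insert_le _ _).trans ?_
    have := Finset.card_image_le (s := Finset.range n) (f := (some : ℕ → Option ℕ))
    rw [Finset.card_range] at this
    omega
  have h2 : ((Finset.univ : Finset (Fin M → Bool)).image List.ofFn).card ≤ 2 ^ M := by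
    refine Finset.card_image_le.trans ?_
    simp
  rw [Finset.card_product, Finset.card_product, Finset.card_product, Finset.card_product,
    Finset.card_product, Finset.card_range, Finset.card_univ, Fintype.card_bool]
  exact Nat.mul_le_mul_left _ (Nat.mul_le_mul h1 (Nat.mul_le_mul h1 (Nat.mul_le_mul h1
    (Nat.mul_le_mul_right _ h2))))

theorem key_mem_keys (A : List (List Bool)) (c lam : List ℕ) (L M u : ℕ) (B : List ℕ × List ℕ)
    (hB : PV A c lam B) (hl : B.1.length ≤ L) : key M lam u B ∈ keys A.length L M := by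
  have hopt : ∀ l : List ℕ, (∀ x ∈ l, x < A.length) →
      l.head? ∈ (insert none ((Finset.range A.length).image some) : Finset (Option ℕ)) := by
    intro l hl
    cases l with
    | nil => simp
    | cons x l => simp [hl x (by simp)]
  have h1 : ∀ x ∈ B.1, x < A.length := fun x hx => hB.lt x (by simp [hx])
  have h2 : ∀ x ∈ B.2, x < A.length := fun x hx => hB.lt x (by simp [hx])
  unfold keys key
  rw [Finset.mem_product, Finset.mem_product, Finset.mem_product, Finset.mem_product,
    Finset.mem_product]
  refine ⟨Finset.mem_range.2 (by simp only; omega), hopt _ h1, hopt _ h2, hopt _ (fun x hx => h1 x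
    (by simpa using hx)), ?_, Finset.mem_univ _⟩
  rw [Finset.mem_image]
  refine ⟨fun i => decide ((i : ℕ) ∈ labs lam B), Finset.mem_univ _, ?_⟩
  apply List.ext_getElem
  · simp
  · intro i h1 h2
    simp

theorem iter_length (A : List (List Bool)) (c lam : List ℕ) (L M u i : ℕ) (hi : i ≤ L) :
    ((level A c lam M u)^[i] [([], [])]).length ≤
      (L + 1) * ((A.length + 1) * ((A.length + 1) * ((A.length + 1) * (2 ^ M * 2)))) := by
  refine le_trans ?_ (card_keys A.length L M)
  have h1 := iter_nodup A c lam M u i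
  have h2 : (((level A c lam M u)^[i] [([], [])]).map (key M lam u)).toFinset ⊆
      keys A.length L M := by
    intro k hk
    rw [List.mem_toFinset, List.mem_map] at hk
    obtain ⟨B, hB, rfl⟩ := hk
    have h3 := iter_sound A c lam M u i B hB
    exact key_mem_keys A c lam L M u B h3.1 (h3.2.trans hi)
  have h3 := Finset.card_le_card h2
  rw [List.toFinset_card_of_nodup h1, List.length_map] at h3
  exact h3

theorem sz_lt_le {x n : ℕ} (h : x < n) : sz x ≤ 4 * n + 1 := by
  have h1 := sz_nat_le x
  have h2 := Poly.size_le_self x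
  omega

theorem sz_list_le {n L : ℕ} (l : List ℕ) (hlt : ∀ x ∈ l, x < n) (hl : l.length ≤ L) :
    sz l ≤ L * (4 * n + 2) + 1 := by
  have h1 := sz_le_length_mul l (4 * n + 1) (fun x hx => sz_lt_le (hlt x hx))
  have h2 := Nat.mul_le_mul_right (4 * n + 1 + 1) hl
  have h3 : L * (4 * n + 1 + 1) = L * (4 * n + 2) := rfl
  omega

theorem iter_sz (A : List (List Bool)) (c lam : List ℕ) (L M u i : ℕ) (hi : i ≤ L) :
    sz ((level A c lam M u)^[i] [([], [])]) ≤
      ((L + 1) * ((A.length + 1) * ((A.length + 1) * ((A.length + 1) * (2 ^ M * 2))))) *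
        (2 * (L * (4 * A.length + 2) + 1) + 2) + 1 := by
  have h1 := sz_le_length_mul ((level A c lam M u)^[i] [([], [])])
    (2 * (L * (4 * A.length + 2) + 1) + 1) (by
    rintro ⟨P, Q⟩ hB
    have h3 := iter_sound A c lam M u i _ hB
    have h4 : P.length ≤ L := h3.2.trans hi
    have h5 : Q.length ≤ L := by
      have := h3.1.len
      simp only at this
      omega
    have h6 := sz_list_le P (fun x hx => h3.1.lt x (by simp [hx])) h4
    have h7 := sz_list_le Q (fun x hx => h3.1.lt x (by simp [hx])) h5
    rw [sz_pair]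
    omega)
  have h2 := Nat.mul_le_mul_right (2 * (L * (4 * A.length + 2) + 1) + 1 + 1)
    (iter_length A c lam L M u i hi)
  exact h1.trans (Nat.add_le_add_right h2 1)

theorem Lf_le (n : ℕ) : Lf n ≤ n + 2 := by
  unfold Lf
  have := Poly.size_le_self n
  omega

theorem four_Lf_lt (n : ℕ) : 4 * Lf n < Mf n := by
  unfold Mf af
  exact Nat.lt_size_self _

theorem Mf_le (n : ℕ) : Mf n ≤ 8 * Lf n := by
  have h1 : 0 < 4 * Lf n := by unfold Lf; omega
  have h2 : 0 < (4 * Lf n).size := Nat.size_pos.2 h1
  have h3 : 2 ^ ((4 * Lf n).size - 1) ≤ 4 * Lf n := Nat.lt_size.1 (by omega)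
  unfold Mf af
  obtain ⟨m, hm⟩ : ∃ m, (4 * Lf n).size = m + 1 := ⟨(4 * Lf n).size - 1, by omega⟩
  rw [hm] at h3 ⊢
  simp only [Nat.add_sub_cancel] at h3
  rw [pow_succ]
  omega

theorem two_pow_Mf_le (n : ℕ) : 2 ^ Mf n ≤ 2 ^ 16 * (2 * n + 1) ^ 8 := by
  calc 2 ^ Mf n ≤ 2 ^ (8 * Lf n) := Nat.pow_le_pow_right (by norm_num) (Mf_le n)
    _ = 2 ^ 16 * (2 ^ n.size) ^ 8 := by
      unfold Lf
      rw [← pow_mul, ← pow_add]
      congr 1
      ring
    _ ≤ 2 ^ 16 * (2 * n + 1) ^ 8 :=
      Nat.mul_le_mul_left _ (Nat.pow_le_pow_left (two_pow_size_le n) 8)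

/-- the polynomial bounding the size of the tables, as a function of the number of vertices -/
def tabBound (n : ℕ) : ℕ :=
  ((n + 3) * ((n + 1) * ((n + 1) * ((n + 1) * ((2 ^ 16 * (2 * n + 1) ^ 8) * 2))))) *
        (2 * ((n + 2) * (4 * n + 2) + 1) + 2) + 1

theorem tabBound_mono {m n : ℕ} (h : m ≤ n) : tabBound m ≤ tabBound n := by
  unfold tabBound
  gcongr

theorem iter_sz' (A : List (List Bool)) (c lam : List ℕ) (u i : ℕ) (hi : i ≤ Lf A.length) :
    sz ((level A c lam (Mf A.length) u)^[i] [([], [])]) ≤ tabBound A.length := by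
  refine (iter_sz A c lam (Lf A.length) (Mf A.length) u i hi).trans ?_
  have h1 := Lf_le A.length
  have h2 := two_pow_Mf_le A.length
  unfold tabBound
  have h3 : Lf A.length + 1 ≤ A.length + 3 := by omega
  exact Nat.add_le_add_right (Nat.mul_le_mul (Nat.mul_le_mul h3 (Nat.mul_le_mul_left _
    (Nat.mul_le_mul_left _ (Nat.mul_le_mul_left _ (Nat.mul_le_mul_right _ h2)))))
    (Nat.add_le_add_right (Nat.mul_le_mul_left _ (Nat.add_le_add_right
      (Nat.mul_le_mul_right _ h1) _)) _)) _

section Poly2

variable {α β : Type} [TEnc α] [TEnc β]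

theorem pDp {A : α → List (List Bool)} {c lam : α → List ℕ} {u : α → ℕ}
    (hA : Poly A) (hc : Poly c) (hlam : Poly lam) (hu : Poly u) :
    Poly (fun a => dp (A a) (c a) (lam a) (Lf (A a).length) (Mf (A a).length) (u a)) := by
  obtain ⟨r, hr⟩ := hA.sz_le
  have hlen : Poly (fun a => (A a).length) := Poly.length hA
  have h1 := Poly.iterLen (l := fun a => List.replicate (Lf (A a).length) ())
    (s := fun _ => [(([], []) : List ℕ × List ℕ)])
    (F := fun a S => level (A a) (c a) (lam a) (Mf (A a).length) (u a) S)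
    (uLf hlen) (const _)
    (pLevel (hA.comp (fst pid)) (hc.comp (fst pid)) (hlam.comp (fst pid))
      (UPoly.comp (n := fun a => Mf (A a).length) (f := Prod.fst) (uMf hlen) (fst pid)) (hu.comp (fst pid)) (snd pid))
    (((r + 3) * ((r + 1) * ((r + 1) * ((r + 1) * ((2 ^ 16 * (2 * r + 1) ^ 8) * 2))))) *
        (2 * ((r + 2) * (4 * r + 2) + 1) + 2) + 1) (by
    intro a k hk
    rw [List.length_replicate] at hk
    refine (iter_sz' (A a) (c a) (lam a) (u a) k hk).trans ?_
    have h2 : (A a).length ≤ r.eval (sz a) := by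
      have := length_lt_sz (A a)
      have := hr a
      omega
    refine (tabBound_mono h2).trans (le_of_eq ?_)
    unfold tabBound
    simp only [Polynomial.eval_add, Polynomial.eval_mul, Polynomial.eval_pow,
      Polynomial.eval_ofNat, Polynomial.eval_one])
  refine h1.congr fun a => ?_
  rw [List.length_replicate]
  rfl

theorem pCloseOK {A : α → List (List Bool)} {B : α → List ℕ × List ℕ} (hA : Poly A) (hB : Poly B) :
    Poly (fun a => closeOK (A a) (B a)) := by
  have h1 : Poly (fun p : α × ℕ => (B p.1).2.head?) := Poly.head? (snd (hB.comp (fst pid)))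
  have h2 : Poly (fun p : α × ℕ => match (B p.1).2.head? with
      | none => false
      | some y => adjB (A p.1) p.2 y) :=
    (Poly.optCases (o := fun p : α × ℕ => (B p.1).2.head?) (g := fun _ => false)
      (h := fun p y => adjB (A p.1) p.2 y) h1 (const false)
      (pAdj (hA.comp (fst (fst pid))) (snd (fst pid)) (snd pid))).congr fun p => by
        cases (B p.1).2.head? <;> rfl
  exact (Poly.optCases (o := fun a => (B a).1.reverse.head?) (g := fun _ => false)
    (h := fun a x => match (B a).2.head? with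
      | none => false
      | some y => adjB (A a) x y) (Poly.head? (Poly.reverse (fst hB))) (const false) h2).congr
    fun a => by
      unfold closeOK
      cases (B a).1.reverse.head? <;> rfl

theorem pGood {A : α → List (List Bool)} {L u : α → ℕ} {B : α → List ℕ × List ℕ} (hA : Poly A)
    (hL : Poly L) (hu : Poly u) (hB : Poly B) : Poly (fun a => good (A a) (L a) (u a) (B a)) :=
  Poly.and (Poly.decide_mem hu (Poly.append (fst hB) (snd hB)))
    (Poly.or (Poly.decide_eq (Poly.length (fst hB)) hL) (pCloseOK hA hB))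

theorem pFindA {A : α → List (List Bool)} {Λ : α → List (List ℕ)} {c : α → List ℕ} {u : α → ℕ}
    (hA : Poly A) (hΛ : Poly Λ) (hc : Poly c) (hu : Poly u) :
    Poly (fun a => findA (A a) (Λ a) (c a) (u a)) := by
  have h1 : Poly (fun a => (Λ a).flatMap fun lam =>
      dp (A a) (c a) lam (Lf (A a).length) (Mf (A a).length) (u a)) :=
    Poly.flatMap (F := fun a lam => dp (A a) (c a) lam (Lf (A a).length) (Mf (A a).length) (u a)) hΛ
      (pDp (hA.comp (fst pid)) (hc.comp (fst pid)) (snd pid) (hu.comp (fst pid)))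
  exact Poly.head? (Poly.filter (p := fun a B => good (A a) (Lf (A a).length) (u a) B) h1
    (pGood (hA.comp (fst pid)) ((uLf (Poly.length hA)).toPoly.comp (fst pid)) (hu.comp (fst pid))
      (snd pid)))

end Poly2

end Pool.Agent.J4H94.NRC
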