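import Pool.Agent.J4H94.NRC.PolyAlg

/-!
# The whole algorithm takes polynomial time
-/

namespace Pool.Agent.J4H94.NRC

open Pool.Agent.NPC
open Pool.Agent.NPC.Poly (pair fst snd const)

/-- One step: take a vertex `u` off the stack and look for a violated bad event containing `u`; if
there is one, give its vertices the colours in `ω` and put them on the stack. -/
def stepA (A : List (List Bool)) (Λ : List (List ℕ)) (s : List ℕ × List ℕ) (ω : List ℕ) :
    List ℕ × List ℕ :=
  match s.2 with
  | [] => s
  | u :: st => match findA A Λ s.1 u with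
    | none => (s.1, st)
    | some B => ((List.range A.length).map (fun v =>
        if v ∈ B.1 ++ B.2 then ω.getD v 0 else s.1.getD v 0), B.1 ++ B.2 ++ st)

/-- The run of the procedure. -/
def runA (A : List (List Bool)) (Λ : List (List ℕ)) (c₀ : List ℕ) (bl : List (List ℕ)) :
    List ℕ × List ℕ :=
  bl.foldl (stepA A Λ) (c₀, List.range A.length)

/-- the bound on the state kept during the run -/
structure SB (n Y Z L k : ℕ) (s : List ℕ × List ℕ) : Prop where
  h1 : ∀ x ∈ s.1, sz x ≤ Z
  h2 : s.1.length ≤ Y
  h3 : ∀ x ∈ s.2, x < n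
  h4 : s.2.length ≤ n + 2 * L * k

theorem getD_sz_le {Z : ℕ} (hZ : 1 ≤ Z) (l : List ℕ) (hl : ∀ x ∈ l, sz x ≤ Z) (v : ℕ) :
    sz (l.getD v 0) ≤ Z := by
  rw [List.getD_eq_getElem?_getD]
  cases h : l[v]? with
  | none => simpa [sz_nat] using hZ
  | some x => exact hl x (List.mem_of_getElem? h)

theorem stepA_SB (A : List (List Bool)) (Λ : List (List ℕ)) (Y Z k : ℕ) (hZ : 1 ≤ Z)
    (hY : A.length ≤ Y) (s : List ℕ × List ℕ) (ω : List ℕ) (hω : ∀ x ∈ ω, sz x ≤ Z)
    (hs : SB A.length Y Z (Lf A.length) k s) :
    SB A.length Y Z (Lf A.length) (k + 1) (stepA A Λ s ω) := by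
  obtain ⟨c, σ⟩ := s
  cases σ with
  | nil =>
    refine ⟨hs.h1, hs.h2, hs.h3, ?_⟩
    change 0 ≤ _
    exact Nat.zero_le _
  | cons u st =>
    have h3 : ∀ x ∈ st, x < A.length := fun x hx => hs.h3 x (List.mem_cons_of_mem _ hx)
    have h4 := hs.h4
    simp only [List.length_cons] at h4
    cases hf : findA A Λ c u with
    | none =>
      have e : stepA A Λ (c, u :: st) ω = (c, st) := by simp only [stepA, hf]
      rw [e]
      refine ⟨hs.h1, hs.h2, h3, ?_⟩
      simp only
      rw [Nat.mul_add]
      omega
    | some B =>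
      have e : stepA A Λ (c, u :: st) ω = ((List.range A.length).map (fun v =>
        if v ∈ B.1 ++ B.2 then ω.getD v 0 else c.getD v 0), B.1 ++ B.2 ++ st) := by
        simp only [stepA, hf]
      rw [e]
      obtain ⟨hv, _, _⟩ := findB_sound A Λ _ _ c u B hf
      refine ⟨?_, ?_, ?_, ?_⟩
      · intro x hx
        simp only [List.mem_map, List.mem_range] at hx
        obtain ⟨v, _, rfl⟩ := hx
        split_ifs
        · exact getD_sz_le hZ ω hω v
        · exact getD_sz_le hZ c hs.h1 v
      · simpa using hY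
      · intro x hx
        rcases List.mem_append.1 hx with hx | hx
        · exact hv.lt x hx
        · exact h3 x hx
      · have h5 := hv.le
        have h6 := hv.len
        simp only [List.length_append]
        rw [Nat.mul_add]
        omega

theorem foldl_SB (A : List (List Bool)) (Λ : List (List ℕ)) (Y Z : ℕ) (hZ : 1 ≤ Z)
    (hY : A.length ≤ Y) : ∀ (l : List (List ℕ)), (∀ ω ∈ l, ∀ x ∈ ω, sz x ≤ Z) →
    ∀ (k : ℕ) (s : List ℕ × List ℕ), SB A.length Y Z (Lf A.length) k s →
    SB A.length Y Z (Lf A.length) (k + l.length) (l.foldl (stepA A Λ) s) := by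
  intro l
  induction l with
  | nil => intro _ k s hs; exact hs
  | cons ω l ih =>
    intro hl k s hs
    rw [List.foldl_cons, List.length_cons, show k + (l.length + 1) = (k + 1) + l.length by ring]
    exact ih (fun ω' h => hl ω' (List.mem_cons_of_mem _ h)) _ _
      (stepA_SB A Λ Y Z k hZ hY s ω (hl ω (by simp)) hs)

theorem SB_sz {n Y Z L k : ℕ} {s : List ℕ × List ℕ} (hs : SB n Y Z L k s) :
    sz s ≤ (Y * (Z + 1) + 1) + ((n + 2 * L * k) * (4 * n + 2) + 1) + 1 := by
  obtain ⟨c, σ⟩ := s
  have h1 := sz_le_length_mul c Z hs.h1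
  have h2 := sz_list_le σ hs.h3 hs.h4
  have h3 := Nat.mul_le_mul_right (Z + 1) hs.h2
  rw [sz_pair]
  simp only at h3
  omega

/-- the number read from `len` bits of `r` starting at position `pos` -/
def rd (r : List Bool) (pos len : ℕ) : ℕ := valB ((List.range len).map fun b => r.getD (pos + b) false)

/-- a random row -/
def row (r : List Bool) (n D i len : ℕ) : List ℕ :=
  (List.range n).map fun v => rd r ((i * n + v) * D) len

/-- the number of labellings -/
def pN (n : ℕ) : ℕ := 128 * (n * (n * n))

/-- the number of steps -/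
def pT (n : ℕ) : ℕ := n + 6 * (n * (n + 2))

/-- the number of random bits for a vertex in a row -/
def pD (n : ℕ) : ℕ := 36 * (n * n) + (4 * n + 8)

/-- the maximum degree -/
def maxdeg (A : List (List Bool)) : ℕ :=
  (A.map fun row => (row.filter fun b => b).length).foldr Max.max 0

/-- the number of bits of a colour -/
def jf (A : List (List Bool)) : ℕ := (36 * (maxdeg A * maxdeg A)).size

/-- **The algorithm**: the colouring computed from the adjacency matrix `A` and the random bits
`r`. -/
def alg (A : List (List Bool)) (r : List Bool) : List ℕ :=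
  (runA A ((List.range (pN A.length)).map fun i => row r A.length (pD A.length) i (af A.length))
    (row r A.length (pD A.length) (pN A.length) (jf A))
    ((List.range (pT A.length)).map fun s =>
      row r A.length (pD A.length) (pN A.length + (1 + s)) (jf A))).1

section Poly

variable {α β : Type} [TEnc α] [TEnc β]

theorem pStepA {A : α → List (List Bool)} {Λ : α → List (List ℕ)} {s : α → List ℕ × List ℕ}
    {ω : α → List ℕ} (hA : Poly A) (hΛ : Poly Λ) (hs : Poly s) (hω : Poly ω) :
    Poly (fun a => stepA (A a) (Λ a) (s a) (ω a)) := by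
  have f1 : Poly (fun p : α × ℕ × List ℕ => p.1) := fst pid
  have f2 : Poly (fun p : α × ℕ × List ℕ => p.2.1) := fst (snd pid)
  have f3 : Poly (fun p : α × ℕ × List ℕ => p.2.2) := snd (snd pid)
  have g1 : Poly (fun p : (α × ℕ × List ℕ) × (List ℕ × List ℕ) => p.1.1) := fst (fst pid)
  have g3 : Poly (fun p : (α × ℕ × List ℕ) × (List ℕ × List ℕ) => p.1.2.2) := snd (snd (fst pid))
  have g4 : Poly (fun p : (α × ℕ × List ℕ) × (List ℕ × List ℕ) => p.2) := snd pid
  have h2 : Poly (fun p : (α × ℕ × List ℕ) × (List ℕ × List ℕ) =>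
      (List.range (A p.1.1).length).map (fun v =>
        if v ∈ p.2.1 ++ p.2.2 then (ω p.1.1).getD v 0 else (s p.1.1).1.getD v 0)) :=
    NPC.Poly.map (F := fun (p : (α × ℕ × List ℕ) × (List ℕ × List ℕ)) v =>
      if v ∈ p.2.1 ++ p.2.2 then (ω p.1.1).getD v 0 else (s p.1.1).1.getD v 0)
      (Poly.range_length (hA.comp g1))
      (Poly.ite (p := fun q : ((α × ℕ × List ℕ) × (List ℕ × List ℕ)) × ℕ =>
          q.2 ∈ q.1.2.1 ++ q.1.2.2)
        (Poly.decide_mem (snd pid) (Poly.append (fst (snd (fst pid))) (snd (snd (fst pid)))))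
        (Poly.getD (hω.comp (fst (fst (fst pid)))) (snd pid) (const 0))
        (Poly.getD (fst (hs.comp (fst (fst (fst pid))))) (snd pid) (const 0)))
  have h1 : Poly (fun p : α × ℕ × List ℕ => match findA (A p.1) (Λ p.1) (s p.1).1 p.2.1 with
      | none => ((s p.1).1, p.2.2)
      | some B => ((List.range (A p.1).length).map (fun v =>
        if v ∈ B.1 ++ B.2 then (ω p.1).getD v 0 else (s p.1).1.getD v 0),
          B.1 ++ B.2 ++ p.2.2)) :=
    (Poly.optCases (o := fun p : α × ℕ × List ℕ => findA (A p.1) (Λ p.1) (s p.1).1 p.2.1)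
      (g := fun p => ((s p.1).1, p.2.2))
      (h := fun p B => ((List.range (A p.1).length).map (fun v =>
        if v ∈ B.1 ++ B.2 then (ω p.1).getD v 0 else (s p.1).1.getD v 0),
          B.1 ++ B.2 ++ p.2.2))
      (pFindA (hA.comp f1) (hΛ.comp f1) (fst (hs.comp f1)) f2)
      (pair (fst (hs.comp f1)) f3)
      (pair h2 (Poly.append (Poly.append (fst g4) (snd g4)) g3))).congr fun p => by
        cases findA (A p.1) (Λ p.1) (s p.1).1 p.2.1 <;> rfl
  refine (Poly.listCases (l := fun a => (s a).2) (g := fun a => s a)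
    (h := fun a u st => match findA (A a) (Λ a) (s a).1 u with
      | none => ((s a).1, st)
      | some B => ((List.range (A a).length).map (fun v =>
        if v ∈ B.1 ++ B.2 then (ω a).getD v 0 else (s a).1.getD v 0),
          B.1 ++ B.2 ++ st)) (snd hs) hs h1).congr fun a => ?_
  unfold stepA
  cases (s a).2 with
  | nil => rfl
  | cons u st => simp only

theorem pRunA {A : α → List (List Bool)} {Λ : α → List (List ℕ)} {c₀ : α → List ℕ}
    {bl : α → List (List ℕ)} (hA : Poly A) (hΛ : Poly Λ) (hc : Poly c₀) (hbl : Poly bl) :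
    Poly (fun a => runA (A a) (Λ a) (c₀ a) (bl a)) := by
  obtain ⟨rA, hrA⟩ := hA.sz_le
  obtain ⟨rc, hrc⟩ := hc.sz_le
  obtain ⟨rb, hrb⟩ := hbl.sz_le
  refine Poly.foldl (l := bl) (s := fun a => (c₀ a, List.range (A a).length))
    (F := fun a => stepA (A a) (Λ a)) hbl (pair hc (Poly.range_length hA))
    (pStepA (hA.comp (fst pid)) (hΛ.comp (fst pid)) (fst (snd pid)) (snd (snd pid)))
    (((rA + rc) * (rc + rb + 1) + 1) +
      ((rA + 2 * (rA + 2) * rb) * (4 * rA + 2) + 1) + 1) ?_
  intro a k hk
  have hA1 := hrA a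
  have hc1 := hrc a
  have hb1 := hrb a
  have hn : (A a).length ≤ rA.eval (sz a) := by
    have := length_lt_sz (A a)
    omega
  have hcl : (c₀ a).length ≤ rc.eval (sz a) := by
    have := length_lt_sz (c₀ a)
    omega
  have hbll : (bl a).length ≤ rb.eval (sz a) := by
    have := length_lt_sz (bl a)
    omega
  have hkb : k ≤ rb.eval (sz a) := hk.trans hbll
  have hZ : 1 ≤ rc.eval (sz a) + rb.eval (sz a) := by
    have := sz_pos (c₀ a)
    omega
  have hbound := foldl_SB (A a) (Λ a) (rA.eval (sz a) + rc.eval (sz a))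
    (rc.eval (sz a) + rb.eval (sz a)) hZ (by omega) ((bl a).take k) (by
      intro ω hω x hx
      have h1 := sz_le_of_mem (List.mem_of_mem_take hω)
      have h2 := sz_le_of_mem hx
      omega) 0 (c₀ a, List.range (A a).length) ⟨by
        intro x hx
        have := sz_le_of_mem hx
        simp only at this
        omega, by simp only; omega, by
        intro x hx
        simpa using hx, by simp⟩
  have h1 := SB_sz hbound
  rw [List.length_take, Nat.min_eq_left hk, Nat.zero_add] at h1
  refine h1.trans ?_
  simp only [Polynomial.eval_add, Polynomial.eval_mul, Polynomial.eval_one, Polynomial.eval_ofNat]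
  have hL := Lf_le (A a).length
  have hL' : Lf (A a).length ≤ rA.eval (sz a) + 2 := by omega
  gcongr

theorem pRd {r : α → List Bool} {pos len : α → ℕ} (hr : Poly r) (hp : Poly pos) (hl : UPoly len) :
    Poly (fun a => rd (r a) (pos a) (len a)) :=
  Poly.valBits (NPC.Poly.map (F := fun a b => (r a).getD (pos a + b) false) hl.range
    (Poly.getD (hr.comp (fst pid)) (Poly.add (hp.comp (fst pid)) (snd pid)) (const false)))

theorem pRow {r : α → List Bool} {n D i len : α → ℕ} (hr : Poly r) (hn : UPoly n) (hD : Poly D)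
    (hi : Poly i) (hl : UPoly len) : Poly (fun a => row (r a) (n a) (D a) (i a) (len a)) :=
  NPC.Poly.map (F := fun a v => rd (r a) ((i a * n a + v) * D a) (len a)) hn.range
    (pRd (hr.comp (fst pid)) (Poly.mul (Poly.add (Poly.mul (hi.comp (fst pid))
      (hn.toPoly.comp (fst pid))) (snd pid)) (hD.comp (fst pid))) (UPoly.comp hl (fst pid)))

theorem upN {n : α → ℕ} (hn : UPoly n) : UPoly (fun a => pN (n a)) :=
  UPoly.mul (UPoly.const 128) (UPoly.mul hn (UPoly.mul hn hn))

theorem upT {n : α → ℕ} (hn : UPoly n) : UPoly (fun a => pT (n a)) :=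
  UPoly.add hn (UPoly.mul (UPoly.const 6) (UPoly.mul hn (UPoly.add hn (UPoly.const 2))))

theorem upD {n : α → ℕ} (hn : UPoly n) : UPoly (fun a => pD (n a)) :=
  UPoly.add (UPoly.mul (UPoly.const 36) (UPoly.mul hn hn))
    (UPoly.add (UPoly.mul (UPoly.const 4) hn) (UPoly.const 8))

theorem sz_foldr_max (l : List ℕ) : sz (l.foldr Max.max 0) ≤ sz l := by
  induction l with
  | nil => simp [sz_nat]
  | cons x l ih =>
    rw [List.foldr_cons, sz_list_cons]
    rcases le_total x (l.foldr Max.max 0) with h | h
    · rw [max_eq_right h]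
      omega
    · rw [max_eq_left h]
      omega

theorem pMaxdeg {A : α → List (List Bool)} (hA : Poly A) : Poly (fun a => maxdeg (A a)) := by
  have h1 : Poly (fun a => (A a).map fun row => (row.filter fun b => b).length) :=
    NPC.Poly.map (F := fun _ (row : List Bool) => (row.filter fun b => b).length) hA
      (Poly.length (Poly.filter (p := fun _ b => b) (snd pid) (snd pid)))
  obtain ⟨q, hq⟩ := h1.sz_le
  refine Poly.foldr (l := fun a => (A a).map fun row => (row.filter fun b => b).length)
    (s := fun _ => 0) (F := fun _ x y => Max.max x y) h1 (const 0)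
    (Poly.max (fst (snd pid)) (snd (snd pid))) q ?_
  intro a k _
  exact (sz_foldr_max _).trans ((Poly.sz_drop_le _ _).trans (hq a))

theorem uJf {A : α → List (List Bool)} (hA : Poly A) : UPoly (fun a => jf (A a)) :=
  uSize (Poly.mul (const 36) (Poly.mul (pMaxdeg hA) (pMaxdeg hA)))

theorem pAlg {A : α → List (List Bool)} {r : α → List Bool} (hA : Poly A) (hr : Poly r) :
    Poly (fun a => alg (A a) (r a)) := by
  have hn : UPoly (fun a => (A a).length) := UPoly.length hA
  have hnp : Poly (fun a => (A a).length) := Poly.length hA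
  have hD : Poly (fun a => pD (A a).length) := (upD hn).toPoly
  have hN : Poly (fun a => pN (A a).length) := (upN hn).toPoly
  refine fst (pRunA hA ?_ (pRow hr hn hD hN (uJf hA)) ?_)
  · exact NPC.Poly.map (F := fun a i => row (r a) (A a).length (pD (A a).length) i (af (A a).length))
      (upN hn).range (pRow (hr.comp (fst pid)) (UPoly.comp (n := fun a => (A a).length)
        (f := Prod.fst) hn (fst pid)) (hD.comp (fst pid)) (snd pid)
        (UPoly.comp (n := fun a => af (A a).length) (f := Prod.fst) (uaf hnp) (fst pid)))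
  · exact NPC.Poly.map (F := fun a s => row (r a) (A a).length (pD (A a).length)
        (pN (A a).length + (1 + s)) (jf (A a)))
      (upT hn).range (pRow (hr.comp (fst pid)) (UPoly.comp (n := fun a => (A a).length)
        (f := Prod.fst) hn (fst pid)) (hD.comp (fst pid))
        (Poly.add (hN.comp (fst pid)) (Poly.add (const 1) (snd pid)))
        (UPoly.comp (n := fun a => jf (A a)) (f := Prod.fst) (uJf hA) (fst pid)))

end Poly

end Pool.Agent.J4H94.NRC
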