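import Mathlib

/-!
# A stack-based resampling procedure and the probability that it makes many resamplings

Colourings of `{0, …, n-1}` are given by random words, from which the colours are read off by a
function `κ`.  A *bad event* is a pair `(P, Q)` of lists of vertices of the same length, and it holds
(is *violated*) if the colour sequences of `P` and `Q` agree.
-/

namespace Pool.Agent.J4H94.NRC

open Finset

variable {W : Type} {n : ℕ}

/-- overwrite the values at the positions in `B` -/
def upd (B : List ℕ) (c ω : Fin n → W) : Fin n → W := fun v => if (v : ℕ) ∈ B then ω v else c v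

/-- the colour of the vertex `x` (and `0` if `x` is not a vertex) -/
def kc (κ : W → ℕ) (c : Fin n → W) (x : ℕ) : ℕ := if h : x < n then κ (c ⟨x, h⟩) else 0

theorem kc_upd_of_mem (κ : W → ℕ) {B : List ℕ} (c ω : Fin n → W) {x : ℕ} (hx : x ∈ B) :
    kc κ (upd B c ω) x = kc κ ω x := by
  unfold kc upd
  simp [hx]

theorem kc_upd_of_notMem (κ : W → ℕ) {B : List ℕ} (c ω : Fin n → W) {x : ℕ} (hx : x ∉ B) :
    kc κ (upd B c ω) x = kc κ c x := by
  unfold kc upd
  simp [hx]

/-- the two colour sequences agree -/
def Viol (κ : W → ℕ) (c : Fin n → W) (B : List ℕ × List ℕ) : Prop :=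
  B.1.map (kc κ c) = B.2.map (kc κ c)

instance (κ : W → ℕ) (c : Fin n → W) (B : List ℕ × List ℕ) : Decidable (Viol κ c B) := by
  unfold Viol
  infer_instance

theorem viol_upd_of_disjoint (κ : W → ℕ) {B : List ℕ} (c ω : Fin n → W) {B' : List ℕ × List ℕ}
    (h : ∀ x ∈ B'.1 ++ B'.2, x ∉ B) : Viol κ (upd B c ω) B' ↔ Viol κ c B' := by
  unfold Viol
  rw [List.map_congr_left (g := kc κ c) (l := B'.1), List.map_congr_left (g := kc κ c) (l := B'.2)]
  · intro x hx
    exact kc_upd_of_notMem κ c ω (h x (by simp [hx]))
  · intro x hx
    exact kc_upd_of_notMem κ c ω (h x (by simp [hx]))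

theorem viol_upd (κ : W → ℕ) (c ω : Fin n → W) (B : List ℕ × List ℕ) :
    Viol κ (upd (B.1 ++ B.2) c ω) B ↔ Viol κ ω B := by
  unfold Viol
  rw [List.map_congr_left (g := kc κ ω) (l := B.1), List.map_congr_left (g := kc κ ω) (l := B.2)]
  · intro x hx
    exact kc_upd_of_mem κ c ω (by simp [hx])
  · intro x hx
    exact kc_upd_of_mem κ c ω (by simp [hx])

/-- exchange the values at the positions in `B` -/
def swapPair (B : List ℕ) (p : (Fin n → W) × (Fin n → W)) : (Fin n → W) × (Fin n → W) :=
  (upd B p.1 p.2, upd B p.2 p.1)

theorem swapPair_invol (B : List ℕ) : Function.Involutive (swapPair (W := W) (n := n) B) := by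
  rintro ⟨c, ω⟩
  unfold swapPair upd
  ext v
  · by_cases h : (v : ℕ) ∈ B <;> simp [h]
  · by_cases h : (v : ℕ) ∈ B <;> simp [h]

variable [Fintype W]

theorem swap_sum (κ : W → ℕ) (B : List ℕ × List ℕ) (F : (Fin n → W) → ℝ) :
    ∑ c : Fin n → W, ∑ ω : Fin n → W, (if Viol κ c B then F (upd (B.1 ++ B.2) c ω) else 0) =
      ((univ.filter fun r : Fin n → W => Viol κ r B).card : ℝ) * ∑ c, F c := by
  classical
  rw [← Fintype.sum_prod_type' (f := fun c ω => if Viol κ c B then F (upd (B.1 ++ B.2) c ω) else 0)]
  rw [← Equiv.sum_comp (Function.Involutive.toPerm _ (swapPair_invol (W := W) (n := n) (B.1 ++ B.2)))]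
  have h : ∀ p : (Fin n → W) × (Fin n → W),
      (if Viol κ ((Function.Involutive.toPerm _ (swapPair_invol (W := W) (n := n) (B.1 ++ B.2))) p).1 B
        then F (upd (B.1 ++ B.2)
          ((Function.Involutive.toPerm _ (swapPair_invol (W := W) (n := n) (B.1 ++ B.2))) p).1
          ((Function.Involutive.toPerm _ (swapPair_invol (W := W) (n := n) (B.1 ++ B.2))) p).2)
        else 0) = (if Viol κ p.2 B then F p.1 else 0) := by
    rintro ⟨c, ω⟩
    change (if Viol κ (upd (B.1 ++ B.2) c ω) B then
      F (upd (B.1 ++ B.2) (upd (B.1 ++ B.2) c ω) (upd (B.1 ++ B.2) ω c)) else 0) = _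
    have h1 : upd (B.1 ++ B.2) (upd (B.1 ++ B.2) c ω) (upd (B.1 ++ B.2) ω c) = c := by
      have := swapPair_invol (B.1 ++ B.2) (c, ω)
      exact (Prod.ext_iff.1 this).1
    rw [h1]
    simp only [viol_upd]
  rw [Finset.sum_congr rfl (fun p _ => h p)]
  rw [Fintype.sum_prod_type_right]
  rw [Finset.card_filter, Nat.cast_sum, Finset.sum_mul]
  refine Finset.sum_congr rfl fun r _ => ?_
  by_cases hr : Viol κ r B <;> simp [hr]

/-- The number of colourings with `C` whose word at `y` has a given colour is at most a `1/k`
fraction of the colourings with `C`. -/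
theorem card_constrain (κ : W → ℕ) (k : ℕ)
    (hκ : ∀ a, (univ.filter fun w : W => κ w = a).card * k ≤ Fintype.card W)
    (C : (Fin n → W) → Prop) [DecidablePred C] (g : (Fin n → W) → ℕ) (y : Fin n)
    (hC : ∀ c w, C (Function.update c y w) ↔ C c)
    (hg : ∀ c w, g (Function.update c y w) = g c) :
    (univ.filter fun c : Fin n → W => C c ∧ κ (c y) = g c).card * k ≤
      (univ.filter fun c : Fin n → W => C c).card := by
  classical
  rcases isEmpty_or_nonempty W with hW | hW
  · have : IsEmpty (Fin n → W) := ⟨fun c => hW.elim (c y)⟩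
    simp [Finset.univ_eq_empty]
  have hpos : 0 < Fintype.card W := Fintype.card_pos
  have key : (univ.filter fun c : Fin n → W => C c ∧ κ (c y) = g c).card * Fintype.card W =
      ∑ c ∈ univ.filter (fun c : Fin n → W => C c), (univ.filter fun w : W => κ w = g c).card := by
    rw [← Finset.card_sigma, ← Finset.card_univ, ← Finset.card_product]
    refine Finset.card_bij' (fun p _ => ⟨Function.update p.1 y p.2, p.1 y⟩)
      (fun p _ => (Function.update p.1 y p.2, p.1 y)) ?_ ?_ ?_ ?_
    · rintro ⟨c, w⟩ h
      simp only [mem_product, mem_filter, mem_univ, true_and, and_true] at h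
      simp only [mem_sigma, mem_filter, mem_univ, true_and]
      exact ⟨(hC c w).2 h.1, by rw [hg]; exact h.2⟩
    · rintro ⟨c, w⟩ h
      simp only [mem_sigma, mem_filter, mem_univ, true_and] at h
      simp only [mem_product, mem_filter, mem_univ, true_and, and_true]
      exact ⟨(hC c w).2 h.1, by rw [hg]; simpa using h.2⟩
    · rintro ⟨c, w⟩ h
      simp
    · rintro ⟨c, w⟩ h
      simp
  have h2 : (univ.filter fun c : Fin n → W => C c ∧ κ (c y) = g c).card * k * Fintype.card W ≤
      (univ.filter fun c : Fin n → W => C c).card * Fintype.card W := by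
    calc _ = ((univ.filter fun c : Fin n → W => C c ∧ κ (c y) = g c).card * Fintype.card W) * k := by
          ring
      _ = ∑ c ∈ univ.filter (fun c : Fin n → W => C c),
            (univ.filter fun w : W => κ w = g c).card * k := by rw [key, Finset.sum_mul]
      _ ≤ ∑ c ∈ univ.filter (fun c : Fin n → W => C c), Fintype.card W :=
          Finset.sum_le_sum fun c _ => hκ _
      _ = _ := by rw [Finset.sum_const, smul_eq_mul]
  exact Nat.le_of_mul_le_mul_right h2 hpos

theorem card_viol (κ : W → ℕ) (k : ℕ)
    (hκ : ∀ a, (univ.filter fun w : W => κ w = a).card * k ≤ Fintype.card W) :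
    ∀ P Q : List ℕ, P.length = Q.length → (P ++ Q).Nodup → (∀ x ∈ P ++ Q, x < n) →
    (univ.filter fun c : Fin n → W => Viol κ c (P, Q)).card * k ^ P.length ≤
      Fintype.card (Fin n → W) := by
  intro P
  induction P with
  | nil =>
    intro Q hlen _ _
    have : Q = [] := by
      cases Q with
      | nil => rfl
      | cons a l => simp at hlen
    subst this
    simpa using Finset.card_le_univ (univ.filter fun c : Fin n → W => Viol κ c ([], []))
  | cons x P ih =>
    intro Q hlen hnd hlt
    cases Q with
    | nil => simp at hlen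
    | cons y Q =>
      have hlen' : P.length = Q.length := by simpa using hlen
      have hsub : List.Sublist (P ++ Q) (x :: P ++ y :: Q) :=
        List.Sublist.append (List.sublist_cons_self x P) (List.sublist_cons_self y Q)
      have hnd' := hnd.sublist hsub
      have hih := ih Q hlen' hnd' (fun z hz => hlt z (hsub.subset hz))
      have hyP : y ∉ P := by
        intro h
        rw [List.nodup_append] at hnd
        exact hnd.2.2 y (by simp [h]) y (by simp) rfl
      have hyQ : y ∉ Q := by
        rw [List.nodup_append] at hnd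
        exact (List.nodup_cons.1 hnd.2.1).1
      have hyx : x ≠ y := by
        rw [List.nodup_append] at hnd
        exact hnd.2.2 x (by simp) y (by simp)
      have hy : y < n := hlt y (by simp)
      have hupd : ∀ (c : Fin n → W) (w : W) (z : ℕ), z ≠ y →
          kc κ (Function.update c ⟨y, hy⟩ w) z = kc κ c z := by
        intro c w z hz
        unfold kc
        split_ifs with h
        · rw [Function.update_of_ne]
          intro h'
          exact hz (congrArg Fin.val h')
        · rfl
      have h1 := card_constrain κ k hκ (fun c : Fin n → W => Viol κ c (P, Q))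
        (fun c => kc κ c x) ⟨y, hy⟩ (by
          intro c w
          unfold Viol
          rw [List.map_congr_left (g := kc κ c) (l := P), List.map_congr_left (g := kc κ c) (l := Q)]
          · intro z hz
            exact hupd c w z (fun h => hyQ (h ▸ hz))
          · intro z hz
            exact hupd c w z (fun h => hyP (h ▸ hz))) (by
          intro c w
          exact hupd c w x hyx)
      have h2 : (univ.filter fun c : Fin n → W => Viol κ c (x :: P, y :: Q)) =
          (univ.filter fun c : Fin n → W => Viol κ c (P, Q) ∧ κ (c ⟨y, hy⟩) = kc κ c x) := by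
        ext c
        rw [mem_filter, mem_filter]
        simp only [mem_univ, true_and, Viol, List.map_cons, List.cons.injEq]
        have : kc κ c y = κ (c ⟨y, hy⟩) := by simp [kc, hy]
        rw [this]
        constructor
        · rintro ⟨h3, h4⟩
          exact ⟨h4, h3.symm⟩
        · rintro ⟨h3, h4⟩
          exact ⟨h4.symm, h3⟩
      rw [h2, List.length_cons, pow_succ']
      calc _ = (univ.filter fun c : Fin n → W => Viol κ c (P, Q) ∧
              κ (c ⟨y, hy⟩) = kc κ c x).card * k * k ^ P.length := by ring
        _ ≤ (univ.filter fun c : Fin n → W => Viol κ c (P, Q)).card * k ^ P.length :=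
            Nat.mul_le_mul_right _ h1
        _ ≤ _ := hih

/-! ### The procedure -/

variable (find : (Fin n → W) → ℕ → Option (List ℕ × List ℕ))

/-- One step of the procedure: take the first vertex `u` off the stack; if a violated bad event
containing `u` is found, assign new words to its vertices and put them on the stack. -/
def step (s : (Fin n → W) × List ℕ) (ω : Fin n → W) : (Fin n → W) × List ℕ :=
  match s.2 with
  | [] => s
  | u :: st => match find s.1 u with
    | none => (s.1, st)
    | some B => (upd (B.1 ++ B.2) s.1 ω, B.1 ++ B.2 ++ st)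

/-- The number of resamplings. -/
def nres : List (Fin n → W) → (Fin n → W) → List ℕ → ℕ
  | [], _, _ => 0
  | _ :: _, _, [] => 0
  | ω :: l, c, u :: st => match find c u with
    | none => nres l c st
    | some B => nres l (upd (B.1 ++ B.2) c ω) (B.1 ++ B.2 ++ st) + 1

/-- Sum over all sequences of length `T`. -/
def S {X : Type} [Fintype X] (T : ℕ) (f : List X → ℝ) : ℝ := ∑ ω : Fin T → X, f (List.ofFn ω)

theorem S_zero {X : Type} [Fintype X] (f : List X → ℝ) : S 0 f = f [] := by
  simp [S]

theorem S_succ {X : Type} [Fintype X] (T : ℕ) (f : List X → ℝ) :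
    S (T + 1) f = ∑ x : X, S T (fun l => f (x :: l)) := by
  unfold S
  rw [← Equiv.sum_comp (Fin.consEquiv (fun _ : Fin (T + 1) => X)), Fintype.sum_prod_type]
  refine Finset.sum_congr rfl fun x _ => Finset.sum_congr rfl fun ω _ => ?_
  congr 1
  rw [List.ofFn_succ]
  simp [Fin.consEquiv]

theorem S_nonneg {X : Type} [Fintype X] (T : ℕ) {f : List X → ℝ} (hf : ∀ l, 0 ≤ f l) : 0 ≤ S T f :=
  Finset.sum_nonneg fun _ _ => hf _

theorem S_le {X : Type} [Fintype X] (T : ℕ) {f : List X → ℝ} (hf : ∀ l, f l ≤ 1) :
    S T f ≤ (Fintype.card X : ℝ) ^ T := by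
  unfold S
  refine (Finset.sum_le_sum fun _ _ => hf _).trans ?_
  simp

/-- **The probability of at least `s` resamplings** decays exponentially in `s`. -/
theorem main_bound (κ : W → ℕ) (k : ℕ) (hk : 0 < k)
    (hκ : ∀ a, (univ.filter fun w : W => κ w = a).card * k ≤ Fintype.card W)
    (E : ℕ → Finset (List ℕ × List ℕ))
    (hfind : ∀ c u B, find c u = some B → B ∈ E u ∧ Viol κ c B)
    (hE : ∀ u, ∀ B ∈ E u, B.1.length = B.2.length ∧ (B.1 ++ B.2).Nodup ∧ ∀ x ∈ B.1 ++ B.2, x < n)
    (hsum : ∀ u, ∑ B ∈ E u, ((k : ℝ) ^ B.1.length)⁻¹ * (3 / 2 : ℝ) ^ (2 * B.1.length) ≤ 1 / 4) :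
    ∀ (T : ℕ) (σ : List ℕ) (s : ℕ),
      ∑ c : Fin n → W, S T (fun l => if s ≤ nres find l c σ then (1 : ℝ) else 0) ≤
        (Fintype.card (Fin n → W) : ℝ) ^ (T + 1) * (1 / 2) ^ s * (3 / 2) ^ σ.length := by
  classical
  set X : ℝ := (Fintype.card (Fin n → W) : ℝ) with hX
  have hX0 : 0 ≤ X := Nat.cast_nonneg _
  have htriv : ∀ (T : ℕ) (σ : List ℕ),
      ∑ c : Fin n → W, S T (fun l => if 0 ≤ nres find l c σ then (1 : ℝ) else 0) ≤
        X ^ (T + 1) * (1 / 2) ^ 0 * (3 / 2) ^ σ.length := by
    intro T σ
    have h1 : ∑ c : Fin n → W, S T (fun l => if 0 ≤ nres find l c σ then (1 : ℝ) else 0) ≤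
        ∑ _c : Fin n → W, X ^ T := Finset.sum_le_sum fun c _ => S_le T (fun l => by split_ifs <;> simp)
    refine h1.trans ?_
    rw [Finset.sum_const, nsmul_eq_mul, Finset.card_univ, ← hX, ← pow_succ', pow_zero, mul_one]
    exact le_mul_of_one_le_right (pow_nonneg hX0 _) (one_le_pow₀ (by norm_num))
  intro T
  induction T with
  | zero =>
    intro σ s
    cases s with
    | zero => exact htriv 0 σ
    | succ s =>
      simp only [S_zero, nres]
      simp
      positivity
  | succ T ih =>
    intro σ s
    cases s with
    | zero => exact htriv (T + 1) σ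
    | succ s =>
      cases σ with
      | nil =>
        simp only [S_succ, nres]
        simp [S]
        positivity
      | cons u st =>
        -- the contribution of a colouring
        have hc : ∀ c : Fin n → W,
            S (T + 1) (fun l => if s + 1 ≤ nres find l c (u :: st) then (1 : ℝ) else 0) ≤
            X * S T (fun l => if s + 1 ≤ nres find l c st then (1 : ℝ) else 0) +
            ∑ B ∈ E u, ∑ ω : Fin n → W, (if Viol κ c B then
              S T (fun l => if s ≤ nres find l (upd (B.1 ++ B.2) c ω) (B.1 ++ B.2 ++ st)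
                then (1 : ℝ) else 0) else 0) := by
          intro c
          have hn1 : 0 ≤ X * S T (fun l => if s + 1 ≤ nres find l c st then (1 : ℝ) else 0) :=
            mul_nonneg hX0 (S_nonneg T (fun l => by split_ifs <;> simp))
          have hn2 : ∀ B ∈ E u, 0 ≤ ∑ ω : Fin n → W, (if Viol κ c B then
              S T (fun l => if s ≤ nres find l (upd (B.1 ++ B.2) c ω) (B.1 ++ B.2 ++ st)
                then (1 : ℝ) else 0) else 0) := by
            intro B _
            refine Finset.sum_nonneg fun ω _ => ?_
            split_ifs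
            · exact S_nonneg T (fun l => by split_ifs <;> simp)
            · exact le_rfl
          rw [S_succ]
          cases hf : find c u with
          | none =>
            have : ∀ (x : Fin n → W) (l : List (Fin n → W)),
                nres find (x :: l) c (u :: st) = nres find l c st := by
              intro x l
              simp only [nres, hf]
            simp only [this]
            rw [Finset.sum_const, nsmul_eq_mul, Finset.card_univ, ← hX]
            linarith [Finset.sum_nonneg hn2]
          | some B =>
            have : ∀ (x : Fin n → W) (l : List (Fin n → W)),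
                nres find (x :: l) c (u :: st) =
                  nres find l (upd (B.1 ++ B.2) c x) (B.1 ++ B.2 ++ st) + 1 := by
              intro x l
              simp only [nres, hf]
            simp only [this, Nat.add_le_add_iff_right]
            obtain ⟨hB, hv⟩ := hfind c u B hf
            have h3 := Finset.single_le_sum hn2 hB
            simp only [hv, if_true] at h3
            linarith
        have h1 := Finset.sum_le_sum fun (c : Fin n → W) (_ : c ∈ univ) => hc c
        rw [Finset.sum_add_distrib, ← Finset.mul_sum, Finset.sum_comm] at h1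
        refine h1.trans ?_
        have h2 : ∀ B ∈ E u, ∑ c : Fin n → W, ∑ ω : Fin n → W, (if Viol κ c B then
              S T (fun l => if s ≤ nres find l (upd (B.1 ++ B.2) c ω) (B.1 ++ B.2 ++ st)
                then (1 : ℝ) else 0) else 0) ≤
              (X * ((k : ℝ) ^ B.1.length)⁻¹) * (X ^ (T + 1) * (1 / 2) ^ s *
                (3 / 2) ^ (B.1 ++ B.2 ++ st).length) := by
          intro B hB
          rw [swap_sum κ B (fun c => S T (fun l => if s ≤ nres find l c (B.1 ++ B.2 ++ st)
                then (1 : ℝ) else 0))]
          obtain ⟨hlen, hnd, hlt⟩ := hE u B hB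
          have h3 := card_viol (n := n) κ k hκ B.1 B.2 hlen hnd hlt
          have h4 : ((univ.filter fun r : Fin n → W => Viol κ r B).card : ℝ) ≤
              X * ((k : ℝ) ^ B.1.length)⁻¹ := by
            rw [← div_eq_mul_inv, le_div_iff₀ (by positivity), hX]
            exact_mod_cast h3
          exact mul_le_mul h4 (ih _ _)
            (Finset.sum_nonneg fun c _ => S_nonneg T (fun l => by split_ifs <;> simp))
            (by positivity)
        have h3 := Finset.sum_le_sum h2
        have h4 : ∑ B ∈ E u, (X * ((k : ℝ) ^ B.1.length)⁻¹) * (X ^ (T + 1) * (1 / 2) ^ s *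
                (3 / 2) ^ (B.1 ++ B.2 ++ st).length) =
            X ^ (T + 1 + 1) * (1 / 2) ^ s * (3 / 2) ^ st.length *
              ∑ B ∈ E u, ((k : ℝ) ^ B.1.length)⁻¹ * (3 / 2 : ℝ) ^ (2 * B.1.length) := by
          rw [Finset.mul_sum]
          refine Finset.sum_congr rfl fun B hB => ?_
          have hl : (B.1 ++ B.2 ++ st).length = 2 * B.1.length + st.length := by
            rw [List.length_append, List.length_append, ← (hE u B hB).1]
            ring
          rw [hl, pow_add, pow_succ X (T + 1)]
          ring
        rw [h4] at h3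
        have h5 := ih st (s + 1)
        have h6 := hsum u
        have h7 : 0 ≤ X ^ (T + 1 + 1) * (1 / 2) ^ s * (3 / 2) ^ st.length := by positivity
        calc _ ≤ X * (X ^ (T + 1) * (1 / 2) ^ (s + 1) * (3 / 2) ^ st.length) +
              X ^ (T + 1 + 1) * (1 / 2) ^ s * (3 / 2) ^ st.length * (1 / 4) :=
              add_le_add (mul_le_mul_of_nonneg_left h5 hX0)
                (h3.trans (mul_le_mul_of_nonneg_left h6 h7))
          _ = X ^ (T + 1 + 1) * (1 / 2) ^ (s + 1) * (3 / 2) ^ (u :: st).length := by
              rw [List.length_cons, pow_succ X (T + 1), pow_succ (1 / 2 : ℝ) s,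
                pow_succ (3 / 2 : ℝ) st.length]
              ring

end Pool.Agent.J4H94.NRC
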