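import Pool.Agent.J4H94.NRC.Run

/-!
# Termination and correctness of the stack procedure
-/

namespace Pool.Agent.J4H94.NRC

variable {W : Type} {n : ℕ}

theorem step_nil (find : (Fin n → W) → ℕ → Option (List ℕ × List ℕ)) (c ω : Fin n → W) :
    step find (c, []) ω = (c, []) := rfl

theorem foldl_step_nil (find : (Fin n → W) → ℕ → Option (List ℕ × List ℕ))
    (l : List (Fin n → W)) (c : Fin n → W) : l.foldl (step find) (c, []) = (c, []) := by
  induction l with
  | nil => rfl
  | cons a l ih => rw [List.foldl_cons, step_nil, ih]

/-- If the stack is not empty after `T` steps, there were many resamplings. -/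
theorem length_lt (find : (Fin n → W) → ℕ → Option (List ℕ × List ℕ)) (L : ℕ)
    (hlen : ∀ c u B, find c u = some B → B.1.length ≤ L ∧ B.2.length ≤ L) :
    ∀ (l : List (Fin n → W)) (c : Fin n → W) (σ : List ℕ), (l.foldl (step find) (c, σ)).2 ≠ [] →
      l.length < σ.length + 2 * L * nres find l c σ := by
  intro l
  induction l with
  | nil =>
    intro c σ h
    have : 0 < σ.length := List.length_pos_of_ne_nil h
    simp [nres, this]
  | cons ω l ih =>
    intro c σ h
    cases σ with
    | nil =>
      rw [foldl_step_nil] at h
      exact absurd rfl h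
    | cons u st =>
      rw [List.foldl_cons] at h
      cases hf : find c u with
      | none =>
        have e1 : step find (c, u :: st) ω = (c, st) := by simp only [step, hf]
        have e2 : nres find (ω :: l) c (u :: st) = nres find l c st := by simp only [nres, hf]
        rw [e1] at h
        have := ih _ _ h
        rw [e2, List.length_cons, List.length_cons]
        omega
      | some B =>
        have e1 : step find (c, u :: st) ω = (upd (B.1 ++ B.2) c ω, B.1 ++ B.2 ++ st) := by
          simp only [step, hf]
        have e2 : nres find (ω :: l) c (u :: st) =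
            nres find l (upd (B.1 ++ B.2) c ω) (B.1 ++ B.2 ++ st) + 1 := by simp only [nres, hf]
        rw [e1] at h
        have h1 := ih _ _ h
        have h2 := hlen c u B hf
        rw [List.length_append, List.length_append] at h1
        rw [e2, List.length_cons, List.length_cons, Nat.mul_add, Nat.mul_one]
        omega

/-- Every violated bad event contains a vertex of the stack. -/
theorem invariant (find : (Fin n → W) → ℕ → Option (List ℕ × List ℕ)) (κ : W → ℕ)
    (V : List ℕ × List ℕ → Prop)
    (hnone : ∀ c u, find c u = none → ∀ B, V B → u ∈ B.1 ++ B.2 → ¬ Viol κ c B)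
    (hsome : ∀ c u B, find c u = some B → u ∈ B.1 ++ B.2) :
    ∀ (l : List (Fin n → W)) (c : Fin n → W) (σ : List ℕ),
      (∀ B, V B → Viol κ c B → ∃ x ∈ B.1 ++ B.2, x ∈ σ) →
      ∀ B, V B → Viol κ (l.foldl (step find) (c, σ)).1 B →
        ∃ x ∈ B.1 ++ B.2, x ∈ (l.foldl (step find) (c, σ)).2 := by
  intro l
  induction l with
  | nil => intro c σ h; exact h
  | cons ω l ih =>
    intro c σ h
    cases σ with
    | nil =>
      rw [foldl_step_nil]
      exact h
    | cons u st =>
      rw [List.foldl_cons]
      cases hf : find c u with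
      | none =>
        have e1 : step find (c, u :: st) ω = (c, st) := by simp only [step, hf]
        rw [e1]
        refine ih c st ?_
        intro B hB hv
        obtain ⟨x, hx, hxs⟩ := h B hB hv
        rcases List.mem_cons.1 hxs with rfl | hxs
        · exact absurd hv (hnone c x hf B hB hx)
        · exact ⟨x, hx, hxs⟩
      | some A =>
        have e1 : step find (c, u :: st) ω = (upd (A.1 ++ A.2) c ω, A.1 ++ A.2 ++ st) := by
          simp only [step, hf]
        rw [e1]
        refine ih _ _ ?_
        intro B hB hv
        by_cases hd : ∃ x ∈ B.1 ++ B.2, x ∈ A.1 ++ A.2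
        · obtain ⟨x, hx, hxA⟩ := hd
          exact ⟨x, hx, List.mem_append_left _ hxA⟩
        · push Not at hd
          rw [viol_upd_of_disjoint κ c ω hd] at hv
          obtain ⟨x, hx, hxs⟩ := h B hB hv
          rcases List.mem_cons.1 hxs with rfl | hxs
          · exact absurd (hsome c x A hf) (hd x hx)
          · exact ⟨x, hx, List.mem_append_right _ hxs⟩

/-- The bad events: vertex-disjoint simple paths `P`, `Q` of the same length `t ≤ L`, such that
`t = L` or `PQ` is a path. -/
structure Valid (adj : ℕ → ℕ → Prop) (n L : ℕ) (B : List ℕ × List ℕ) : Prop where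
  len : B.1.length = B.2.length
  pos : 1 ≤ B.1.length
  le : B.1.length ≤ L
  nd : (B.1 ++ B.2).Nodup
  lt : ∀ x ∈ B.1 ++ B.2, x < n
  ch1 : B.1.IsChain adj
  ch2 : B.2.IsChain adj
  cl : B.1.length = L ∨ (B.1 ++ B.2).IsChain adj

/-- If no bad event is violated, the colouring is nonrepetitive. -/
theorem nonrep_of_no_viol (adj : ℕ → ℕ → Prop) (n L : ℕ) (hL : 1 ≤ L) (col : ℕ → ℕ)
    (h : ∀ B, Valid adj n L B → B.1.map col ≠ B.2.map col)
    (l₁ l₂ : List ℕ) (hne : l₁ ≠ []) (hch : (l₁ ++ l₂).IsChain adj) (hnd : (l₁ ++ l₂).Nodup)
    (hlt : ∀ x ∈ l₁ ++ l₂, x < n) : l₁.map col ≠ l₂.map col := by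
  intro heq
  have hlen : l₁.length = l₂.length := by
    have := congrArg List.length heq
    simpa using this
  have hpos : 0 < l₁.length := List.length_pos_of_ne_nil hne
  have hch' := List.isChain_append.1 hch
  rcases Nat.lt_or_ge l₁.length L with hl | hl
  · exact h (l₁, l₂) ⟨hlen, hpos, hl.le, hnd, hlt, hch'.1, hch'.2.1, Or.inr hch⟩ heq
  · have hsub : List.Sublist (l₁.take L ++ l₂.take L) (l₁ ++ l₂) :=
      List.Sublist.append (List.take_sublist _ _) (List.take_sublist _ _)
    refine h (l₁.take L, l₂.take L) ⟨?_, ?_, ?_, hnd.sublist hsub, fun x hx => hlt x (hsub.subset hx),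
      ?_, ?_, Or.inl ?_⟩ ?_
    · simp [hlen]
    · simp only [List.length_take]; omega
    · simp only [List.length_take]; omega
    · exact hch'.1.take L
    · exact hch'.2.1.take L
    · simp only [List.length_take]; omega
    · simp only [List.map_take, heq]

end Pool.Agent.J4H94.NRC
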